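import Pool.Agent.N279.AAK.Bdd
import Pool.Agent.Helper630.Szego.Example

/-!
Absolute continuity with one exceptional point of the circle.
-/

open Finset MeasureTheory Filter Topology Complex
open scoped ENNReal ComplexConjugate
open MeasureTheory.VectorMeasure
open Pool.Agent.Helper630.Szego

namespace Pool.Agent.N279.AAK

variable {N M : Type*} [NormedAddCommGroup N] [InnerProductSpace ℂ N] [CompleteSpace N]
  [NormedAddCommGroup M] [InnerProductSpace ℂ M] [CompleteSpace M]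

/-- mass of one small ball -/
lemma ball_mass' {F : ℂ → N →L[ℂ] N} {σ : VectorMeasure TT (N →L[ℂ] N)} (hF : IsHerglotz F σ)
    [IsFiniteMeasure (VectorMeasure.variation (V := N →L[ℂ] N) σ)] (ξ : N)
    (μ : Measure TT) [IsFiniteMeasure μ] (hμ : μ = qm (V := N →L[ℂ] N) σ (qf ξ) (fun Δ => qf_nonneg ξ (hF.1 Δ)))
    {C : ℝ} (θ₀ : TT) {d : ℝ} (hd0 : 0 < d) (hd : d ≤ 1 / 2) (hb : ‖F ((1 - d : ℝ) * pt θ₀)‖ ≤ C) :
    μ (Metric.closedBall θ₀ d) ≤ ENNReal.ofReal (8 * Real.pi * (C * ‖ξ‖ ^ 2) * d) := by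
  set z : ℂ := ((1 - d : ℝ) : ℂ) * pt θ₀ with hz
  have hzn : ‖z‖ = 1 - d := by
    rw [hz, norm_mul, pt_norm, mul_one, Complex.norm_real, Real.norm_of_nonneg (by linarith)]
  have hz1 : ‖z‖ < 1 := by rw [hzn]; linarith
  have h1 := hF.2 z (mem_ball_zero_iff.2 hz1)
  have h2 := qf_integral ξ σ hF.1 (kernel_integrable hz1 (VectorMeasure.variation (V := N →L[ℂ] N) σ))
  rw [← hμ] at h2
  have h3 : qf ξ (F z) = (2 * Real.pi)⁻¹ * ∫ θ, ((pt θ + z) / (pt θ - z)).re ∂μ := by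
    rw [h1, _root_.map_smul, h2, smul_eq_mul]
  have h4 : qf ξ (F z) ≤ C * ‖ξ‖ ^ 2 := by
    refine (qf_le ξ _).trans ?_
    gcongr
  have h5 : (4 * d)⁻¹ * μ.real (Metric.closedBall θ₀ d) ≤ ∫ θ, ((pt θ + z) / (pt θ - z)).re ∂μ := by
    have hint : Integrable (fun θ => ((pt θ + z) / (pt θ - z)).re) μ := (kernel_integrable hz1 μ).re
    have h6 : ∫ θ in Metric.closedBall θ₀ d, ((pt θ + z) / (pt θ - z)).re ∂μ ≤ ∫ θ, ((pt θ + z) / (pt θ - z)).re ∂μ := by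
      refine setIntegral_le_integral hint (ae_of_all _ fun θ => ?_)
      simp only [Pi.zero_apply]
      rw [kernel_re _ _ (pt_norm θ)]
      have : 0 ≤ 1 - ‖z‖ ^ 2 := by nlinarith [norm_nonneg z]
      positivity
    refine le_trans ?_ h6
    have h7 : ∫ θ in Metric.closedBall θ₀ d, (4 * d)⁻¹ ∂μ = (4 * d)⁻¹ * μ.real (Metric.closedBall θ₀ d) := by
      rw [MeasureTheory.setIntegral_const, smul_eq_mul]; ring
    rw [← h7]
    refine setIntegral_mono_on (integrable_const _).integrableOn hint.integrableOn Metric.isClosed_closedBall.measurableSet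
      fun θ hθ => ?_
    rw [kernel_re _ _ (pt_norm θ)]
    have h8 : ‖pt θ - z‖ ≤ 2 * d := by
      have e : pt θ - z = (pt θ - pt θ₀) + (d : ℂ) * pt θ₀ := by
        rw [hz]; push_cast; ring
      rw [e]
      refine (norm_add_le _ _).trans ?_
      rw [norm_mul, pt_norm, mul_one, Complex.norm_real, Real.norm_of_nonneg hd0.le]
      have := (pt_dist θ θ₀).trans (Metric.mem_closedBall.1 hθ)
      linarith
    have h9 : 0 < ‖pt θ - z‖ := norm_pos_iff.2 (pt_sub_ne hz1 θ)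
    rw [inv_eq_one_div, div_le_div_iff₀ (by positivity) (by positivity), hzn]
    have h10 : ‖pt θ - z‖ ^ 2 ≤ (2 * d) ^ 2 := by gcongr
    nlinarith [mul_pos hd0 hd0]
  have h6 : μ.real (Metric.closedBall θ₀ d) ≤ 8 * Real.pi * (C * ‖ξ‖ ^ 2) * d := by
    have hp := Real.pi_pos
    have h7 : ∫ θ, ((pt θ + z) / (pt θ - z)).re ∂μ ≤ 2 * Real.pi * (C * ‖ξ‖ ^ 2) := by
      rw [h3] at h4
      rw [inv_mul_le_iff₀ (by positivity)] at h4
      exact h4
    have h8 := h5.trans h7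
    rw [inv_mul_le_iff₀ (by positivity)] at h8
    calc μ.real (Metric.closedBall θ₀ d) ≤ 4 * d * (2 * Real.pi * (C * ‖ξ‖ ^ 2)) := h8
      _ = _ := by ring
  rw [← ENNReal.ofReal_toReal (measure_ne_top μ (Metric.closedBall θ₀ d))]
  exact ENNReal.ofReal_le_ofReal h6

lemma pt_zero : pt (0 : TT) = 1 := by
  have := pt_coe 0
  simpa using this

theorem ac_main' [Nontrivial N] {F : ℂ → N →L[ℂ] N} {σ : VectorMeasure TT (N →L[ℂ] N)} (hF : IsHerglotz F σ)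
    (h0 : F 0 = 1) (A : ℕ → Set TT) (hA : ∀ n, MeasurableSet (A n)) (hcov : ∀ θ, θ ≠ 0 → ∃ n, θ ∈ A n) (C : ℕ → ℝ)
    (hC0 : ∀ n, 0 ≤ C n)
    (hC : ∀ n, ∀ θ ∈ A n, ∀ r : ℝ, 0 < r → r < 1 → ‖F (r * pt θ)‖ ≤ C n)
    (hpt : ∀ ε : ℝ, 0 < ε → ∃ d : ℝ, 0 < d ∧ d ≤ 1 / 2 ∧ ‖F ((1 - d : ℝ) : ℂ)‖ * d ≤ ε) :
    ∀ Δ, MeasurableSet Δ → volume Δ = 0 → σ Δ = 0 := by
  intro Δ hΔ hΔ0
  have hfin := finite_variation hF h0
  have hz : ∀ ξ : N, qf ξ (σ Δ) = 0 := by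
    intro ξ
    set μ := qm (V := N →L[ℂ] N) σ (qf ξ) (fun Δ => qf_nonneg ξ (hF.1 Δ)) with hμ
    have hle := qm_le (V := N →L[ℂ] N) σ (qf ξ) (fun Δ => qf_nonneg ξ (hF.1 Δ))
    have hμf : IsFiniteMeasure μ := by
      refine ⟨lt_of_le_of_lt (hle Set.univ) ?_⟩
      rw [Measure.smul_apply, smul_eq_mul]
      exact ENNReal.mul_lt_top ENNReal.ofReal_lt_top (measure_lt_top _ _)
    have h1 : ∀ n, μ (Δ ∩ A n) = 0 := by
      intro n
      refine restrict_le_hausdorff μ (A n) (hA n) (K := 8 * Real.pi * (C n * ‖ξ‖ ^ 2) + 1) ?_ ?_ hΔ hΔ0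
      · have := Real.pi_pos
        have := hC0 n
        positivity
      · intro θ₀ hθ₀ d hd0 hd
        refine (ball_mass hF ξ μ hμ (hC0 n) θ₀ (hC n θ₀ hθ₀) hd0 hd).trans ?_
        apply ENNReal.ofReal_le_ofReal
        nlinarith
    have h3 : μ {(0 : TT)} = 0 := by
      have key : ∀ ε : ℝ, 0 < ε → μ {(0 : TT)} ≤ ENNReal.ofReal (8 * Real.pi * ‖ξ‖ ^ 2 * ε) := by
        intro ε hε
        obtain ⟨d, hd0, hd, hde⟩ := hpt ε hε
        have h4 := ball_mass' hF ξ μ hμ (C := ‖F ((1 - d : ℝ) : ℂ)‖) 0 hd0 hd (by rw [pt_zero, mul_one])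
        have h5 : μ {(0 : TT)} ≤ μ (Metric.closedBall 0 d) := measure_mono (by
          intro x hx
          rw [Set.mem_singleton_iff] at hx
          rw [hx]
          exact Metric.mem_closedBall_self hd0.le)
        refine h5.trans (h4.trans (ENNReal.ofReal_le_ofReal ?_))
        have hp := Real.pi_pos
        calc 8 * Real.pi * (‖F ((1 - d : ℝ) : ℂ)‖ * ‖ξ‖ ^ 2) * d = 8 * Real.pi * ‖ξ‖ ^ 2 * (‖F ((1 - d : ℝ) : ℂ)‖ * d) := by ring
          _ ≤ _ := by gcongr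
      have h6 : Tendsto (fun ε : ℝ => ENNReal.ofReal (8 * Real.pi * ‖ξ‖ ^ 2 * ε)) (𝓝[>] 0) (𝓝 0) := by
        have : Tendsto (fun ε : ℝ => ENNReal.ofReal (8 * Real.pi * ‖ξ‖ ^ 2 * ε)) (𝓝 0)
            (𝓝 (ENNReal.ofReal (8 * Real.pi * ‖ξ‖ ^ 2 * 0))) :=
          (ENNReal.continuous_ofReal.comp (continuous_const.mul continuous_id)).tendsto 0
        rw [mul_zero, ENNReal.ofReal_zero] at this
        exact this.mono_left nhdsWithin_le_nhds
      refine le_antisymm (ge_of_tendsto h6 ?_) bot_le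
      filter_upwards [self_mem_nhdsWithin] with ε hε
      exact key ε hε
    have h2 : μ Δ = 0 := by
      have : Δ ⊆ (⋃ n, Δ ∩ A n) ∪ {0} := by
        intro θ hθ
        by_cases h : θ = 0
        · exact Or.inr h
        · obtain ⟨n, hn⟩ := hcov θ h
          exact Or.inl (Set.mem_iUnion.2 ⟨n, hθ, hn⟩)
      exact measure_mono_null this (measure_union_null (measure_iUnion_null h1) h3)
    rw [hμ, qm_apply (V := N →L[ℂ] N) σ (qf ξ) _ hΔ] at h2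
    exact le_antisymm (ENNReal.ofReal_eq_zero.1 h2) (qf_nonneg ξ (hF.1 Δ))
  have hpos := hF.1 Δ
  have h3 : ∀ ξ : N, inner ℂ ((σ Δ) ξ) ξ = 0 := by
    intro ξ
    have h4 := hpos.inner_nonneg_left ξ
    rw [Complex.nonneg_iff] at h4
    apply Complex.ext
    · have h5 := hz ξ
      rw [qf_apply, ← inner_conj_symm, Complex.conj_re] at h5
      simpa using h5
    · simpa using h4.2.symm
  have h4 : ((σ Δ : N →L[ℂ] N) : N →ₗ[ℂ] N) = 0 := (inner_map_self_eq_zero _).1 h3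
  ext ξ
  exact congrArg (fun T : N →ₗ[ℂ] N => T ξ) h4

/-- the counterexample -/
noncomputable def chi (e : M) (f : N) (z : ℂ) : M →L[ℂ] N := bn z • PP e f

lemma chi_norm_le (e : M) (f : N) (he : ‖e‖ = 1) (hf : ‖f‖ = 1) (z : ℂ) : ‖chi e f z‖ ≤ ‖bn z‖ := by
  unfold chi
  rw [norm_smul]
  have h := PP_norm e f he hf
  calc ‖bn z‖ * ‖PP e f‖ ≤ ‖bn z‖ * 1 := by gcongr
    _ = _ := by ring

lemma chi_mem (e : M) (f : N) (he : ‖e‖ = 1) (hf : ‖f‖ = 1) : InB0 (chi e f) := by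
  refine ⟨⟨?_, fun z hz => ?_⟩, ?_⟩
  · intro z hz
    unfold chi
    exact ((bn_differentiableAt (mem_ball_zero_iff.1 hz)).smul_const _).differentiableWithinAt
  · have hz1 := mem_ball_zero_iff.1 hz
    exact (chi_norm_le e f he hf z).trans (bn_le hz1.le)
  · unfold chi
    rw [bn_zero, zero_smul]

lemma cay_norm_le {z : ℂ} (hz : ‖z‖ ≤ 1) (h1 : z ≠ 1) : ‖cay z‖ ≤ 2 / ‖1 - z‖ := by
  unfold cay
  rw [norm_div]
  have h2 : 0 < ‖1 - z‖ := norm_pos_iff.2 (sub_ne_zero.2 h1.symm)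
  gcongr
  refine (norm_add_le _ _).trans ?_
  rw [norm_one]; linarith

lemma half_dist (θ : TT) {r : ℝ} (hr0 : 0 ≤ r) (hr1 : r ≤ 1) : ‖1 - pt θ‖ / 2 ≤ ‖1 - r * pt θ‖ := by
  have h1 : ‖1 - pt θ‖ ≤ ‖1 - r * pt θ‖ + (1 - r) := by
    have e : 1 - pt θ = (1 - r * pt θ) - ((1 - r : ℝ) : ℂ) * pt θ := by push_cast; ring
    rw [e]
    refine (norm_sub_le _ _).trans ?_
    rw [norm_mul, pt_norm, mul_one, Complex.norm_real, Real.norm_of_nonneg (by linarith)]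
  have h2 : 1 - r ≤ ‖1 - r * pt θ‖ := by
    have h3 := norm_sub_norm_le (1 : ℂ) (r * pt θ)
    rw [norm_one, norm_mul, pt_norm, mul_one, Complex.norm_real, Real.norm_of_nonneg hr0] at h3
    exact h3
  linarith

lemma bn_sq_le {z : ℂ} (hz : ‖z‖ ≤ 1) {δ : ℝ} (hδ0 : 0 < δ) (hδ : δ ≤ ‖an z‖) : ‖bn z‖ ≤ 1 - δ ^ 2 / 2 := by
  have h1 := ab_le hz
  have h2 : δ ^ 2 ≤ ‖an z‖ ^ 2 := by gcongr
  have h3 : ‖bn z‖ ^ 2 ≤ (1 - δ ^ 2 / 2) ^ 2 := by nlinarith [sq_nonneg (δ ^ 2)]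
  have h4 : δ ≤ 1 := hδ.trans (an_le hz)
  have h5 : 0 ≤ 1 - δ ^ 2 / 2 := by nlinarith
  exact le_of_sq_le_sq h3 h5

theorem chi_Ba [Nontrivial N] (e : M) (f : N) (he : ‖e‖ = 1) (hf : ‖f‖ = 1) : InBa (chi e f) := by
  refine ⟨chi_mem e f he hf, fun ε hε σ hσ => ?_⟩
  set A : ℕ → Set TT := fun n => {θ | (1 : ℝ) / (n + 1) ≤ ‖1 - pt θ‖} with hA
  set δ : ℕ → ℝ := fun n => (KC * Real.exp (2 * (4 * (n + 1) + 1)))⁻¹ with hδ
  have hKC := KC_ge
  have hδ0 : ∀ n, 0 < δ n := fun n => by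
    rw [hδ]
    have := Real.exp_pos (2 * (4 * ((n : ℝ) + 1) + 1))
    positivity
  refine ac_main' hσ (FF_zero (chi_mem e f he hf).2) A (fun n => ?_) (fun θ hθ => ?_)
    (fun n => 2 / (1 - (1 - (δ n) ^ 2 / 2))) (fun n => ?_) (fun n θ hθ r hr0 hr1 => ?_) ?_
  · exact (isClosed_le continuous_const (by
      have := pt_continuous
      fun_prop)).measurableSet
  · have h1 : pt θ ≠ 1 := by
      intro h
      apply hθ
      have h2 : AddCircle.toCircle θ = AddCircle.toCircle (0 : TT) := by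
        apply Subtype.ext
        have h3 := pt_zero
        unfold pt at h h3
        rw [h, h3]
      exact AddCircle.injective_toCircle Real.two_pi_pos.ne' h2
    have h2 : 0 < ‖1 - pt θ‖ := norm_pos_iff.2 (sub_ne_zero.2 h1.symm)
    obtain ⟨n, hn⟩ := exists_nat_one_div_lt h2
    exact ⟨n, hn.le⟩
  · have := hδ0 n
    have h2 : 1 - (1 - (δ n) ^ 2 / 2) = (δ n) ^ 2 / 2 := by ring
    rw [h2]
    positivity
  · have hn : ‖(r : ℂ) * pt θ‖ = r := by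
      rw [norm_mul, pt_norm, mul_one, Complex.norm_real, Real.norm_of_nonneg hr0.le]
    have hn1 : ‖(r : ℂ) * pt θ‖ < 1 := by rw [hn]; exact hr1
    have hne := ne_one_of_lt hn1
    have hθ' : (1 : ℝ) / (n + 1) ≤ ‖1 - pt θ‖ := hθ
    have h1 := half_dist θ hr0.le hr1.le
    have h2 : ‖cay (r * pt θ)‖ ≤ 4 * (n + 1) := by
      refine (cay_norm_le hn1.le hne).trans ?_
      have h3 : 0 < ‖1 - r * pt θ‖ := norm_pos_iff.2 (sub_ne_zero.2 hne.symm)
      rw [div_le_iff₀ h3]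
      have h4 : (1 : ℝ) / (n + 1) / 2 ≤ ‖1 - r * pt θ‖ := by linarith
      have h5 : (0:ℝ) < n + 1 := by positivity
      calc (2 : ℝ) = 4 * (n + 1) * (1 / (n + 1) / 2) := by field_simp; norm_num
        _ ≤ _ := by gcongr
    have h3 : ‖kk (r * pt θ)‖ ≤ 4 * (n + 1) + 1 := by
      have h4 := kk_norm_sq (r * pt θ)
      nlinarith [norm_nonneg (kk (r * pt θ)), Nat.cast_nonneg (α := ℝ) n]
    have h4 : δ n ≤ ‖an (r * pt θ)‖ := by
      refine le_trans ?_ (an_norm_ge hn1.le)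
      have h5 : Real.exp (2 * ‖kk (r * pt θ)‖) ≤ Real.exp (2 * (4 * ((n : ℝ) + 1) + 1)) := Real.exp_le_exp.2 (by linarith)
      have h6 := Real.exp_pos (2 * ‖kk (r * pt θ)‖)
      change (KC * Real.exp (2 * (4 * ((n : ℝ) + 1) + 1)))⁻¹ ≤ (KC * Real.exp (2 * ‖kk (r * pt θ)‖))⁻¹
      exact inv_anti₀ (by positivity) (by gcongr)
    refine FF_bound ?_ ((chi_norm_le e f he hf _).trans (bn_sq_le hn1.le (hδ0 n) h4)) (hε.2 _ (mem_ball_zero_iff.2 hn1))
    have := hδ0 n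
    have : 0 < (δ n) ^ 2 / 2 := by positivity
    linarith
  · intro η hη
    have hg : 0 < ‖gc‖ ^ 2 := by
      have : 0 < ‖gc‖ := norm_pos_iff.2 gc_ne
      positivity
    obtain ⟨α, hα2, hαη⟩ : ∃ α : ℝ, 2 ≤ α ∧ 512 * ‖gc‖ ^ 2 / η ≤ α :=
      ⟨max 2 (512 * ‖gc‖ ^ 2 / η), le_max_left _ _, le_max_right _ _⟩
    have hα0 : 0 < α := by linarith
    set d : ℝ := 2 / (1 + 2 * α ^ 2) with hd
    have hd0 : 0 < d := by positivity
    have hd1 : d ≤ 1 / 2 := by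
      rw [hd, div_le_iff₀ (by positivity)]
      nlinarith
    refine ⟨d, hd0, hd1, ?_⟩
    have hdc : ((1 - d : ℝ) : ℂ) ≠ 1 := by
      intro h
      have : (1 - d : ℝ) = 1 := by exact_mod_cast h
      linarith
    have hzn : ‖((1 - d : ℝ) : ℂ)‖ < 1 := by
      rw [Complex.norm_real, Real.norm_of_nonneg (by linarith)]; linarith
    have hcay : cay ((1 - d : ℝ) : ℂ) = ((2 * α ^ 2 : ℝ) : ℂ) := by
      unfold cay
      have h1 : (1 : ℂ) - ((1 - d : ℝ) : ℂ) = (d : ℂ) := by push_cast; ring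
      have h2 : (1 : ℂ) + ((1 - d : ℝ) : ℂ) = ((2 - d : ℝ) : ℂ) := by push_cast; ring
      rw [h1, h2, ← Complex.ofReal_div]
      congr 1
      rw [hd]
      field_simp
      ring
    have hkk : kk ((1 - d : ℝ) : ℂ) = (α : ℂ) + α * I := by
      have h1 := tt_re_sq (cay ((1 - d : ℝ) : ℂ))
      have h2 := tt_re_mul_im (cay ((1 - d : ℝ) : ℂ))
      have h3 := kk_nonneg hzn.le
      rw [hcay] at h1 h2
      rw [Complex.ofReal_im] at h1
      rw [Complex.ofReal_re] at h2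
      unfold kk at h3 ⊢
      rw [hcay] at h3 ⊢
      set x := (tt ((2 * α ^ 2 : ℝ) : ℂ)).re with hx
      set y := (tt ((2 * α ^ 2 : ℝ) : ℂ)).im with hy
      have h4 : x = y := by nlinarith
      have h5 : x = α := by
        rw [← h4] at h2
        nlinarith
      apply Complex.ext
      · rw [← hx, h5]; simp
      · rw [← hy, ← h4, h5]; simp
    have hdb := diag_bound (conj lam) conj_lam_le α (by linarith)
    rw [← hkk] at hdb
    set z : ℂ := ((1 - d : ℝ) : ℂ) with hz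
    set k := kk z with hk
    have hkn := kk_nonneg hzn.le
    have hPn : ‖Pn k‖ ^ 2 = ‖gc‖ ^ 2 * ‖Pf k - conj lam * Qf k‖ ^ 2 := by
      unfold Pn
      rw [norm_mul, mul_pow]
    have hPn1 := Pn_ge hkn.1 hkn.2
    have h1 : 1 - ‖bn z‖ ^ 2 = (‖Pf k‖ ^ 2 - ‖Qf k‖ ^ 2) / ‖Pn k‖ ^ 2 := by
      have h0 : ‖Pn k‖ ^ 2 ≠ 0 := by
        have : 0 < ‖Pn k‖ := lt_of_lt_of_le one_pos hPn1
        positivity
      have hb0 : ‖bn z‖ = ‖Qn k‖ / ‖Pn k‖ := by
        unfold bn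
        rw [norm_div]
      rw [hb0, div_pow, ← PQn, sub_div, div_self h0]
    have h2 : 1 / (128 * α * ‖gc‖ ^ 2) ≤ 1 - ‖bn z‖ ^ 2 := by
      rw [h1, div_le_div_iff₀ (by positivity) (by positivity), hPn]
      nlinarith
    have hb := bn_lt hzn.le
    have h3 : 1 / (256 * α * ‖gc‖ ^ 2) ≤ 1 - ‖bn z‖ := by
      have h4 : 1 - ‖bn z‖ ^ 2 ≤ 2 * (1 - ‖bn z‖) := by nlinarith [norm_nonneg (bn z)]
      have h5 : 1 / (256 * α * ‖gc‖ ^ 2) = 1 / (128 * α * ‖gc‖ ^ 2) / 2 := by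
        field_simp
        norm_num
      rw [h5]
      linarith
    have h4 : ‖FF (chi e f) ε z‖ ≤ 2 / (1 - ‖bn z‖) :=
      FF_bound hb (chi_norm_le e f he hf z) (hε.2 _ (mem_ball_zero_iff.2 hzn))
    have h5 : 2 / (1 - ‖bn z‖) ≤ 512 * α * ‖gc‖ ^ 2 := by
      rw [div_le_iff₀ (by linarith)]
      rw [div_le_iff₀ (by positivity)] at h3
      nlinarith
    have h6 : d ≤ 1 / α ^ 2 := by
      rw [hd, div_le_div_iff₀ (by positivity) (by positivity)]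
      nlinarith
    calc ‖FF (chi e f) ε z‖ * d ≤ (512 * α * ‖gc‖ ^ 2) * (1 / α ^ 2) := by
          gcongr
          exact h4.trans h5
      _ = 512 * ‖gc‖ ^ 2 / α := by field_simp
      _ ≤ η := by
          rw [div_le_iff₀ hη] at hαη
          rw [div_le_iff₀ hα0]
          linarith

end Pool.Agent.N279.AAK
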