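import Pool.Agent.N279.AAK.Pair

/-!
The bounded analytic function whose boundary values are the symbol.
-/

open Complex Filter Topology Set
open scoped ComplexConjugate
open Pool.Agent.Helper630.Szego

namespace Pool.Agent.N279.AAK

/-- the quotient whose boundary values are the symbol -/
noncomputable def Gf (k : ℂ) : ℂ := (Qf k - conj lam * Rf k) / (Pf k - conj lam * Qf k)

lemma den_ne {k : ℂ} (ha : 0 ≤ k.re) (hb : 0 ≤ k.im) : Pf k - conj lam * Qf k ≠ 0 := by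
  intro h
  apply Pn_ne ha hb
  unfold Pn
  rw [h, mul_zero]

lemma den_ge {k : ℂ} (ha : 0 ≤ k.re) (hb : 0 ≤ k.im) : 1 / ‖gc‖ ≤ ‖Pf k - conj lam * Qf k‖ := by
  have h := Pn_ge ha hb
  unfold Pn at h
  rw [norm_mul] at h
  have h1 : 0 < ‖gc‖ := norm_pos_iff.2 gc_ne
  rw [div_le_iff₀ h1]
  linarith

lemma Gf_bdry {k : ℂ} (ha : 0 ≤ k.re) (hb : 0 ≤ k.im) (hk : k.re * k.im = 0) : ‖Gf k‖ ≤ 1 := by
  have h1 : Qf k - conj lam * Rf k = conj (Qf k - lam * Pf k) := by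
    obtain ⟨h1, h2, h3⟩ := bdry_conj hk
    rw [map_sub, map_mul, h1, h2]
  have h2 := PQn_eq hk
  unfold Gf
  rw [h1, norm_div, Complex.norm_conj, div_le_one (norm_pos_iff.2 (den_ne ha hb))]
  unfold Pn Qn at h2
  rw [norm_mul, norm_mul, mul_pow, mul_pow, ← mul_sub] at h2
  have h3 : 0 < ‖gc‖ ^ 2 := by
    have : 0 < ‖gc‖ := norm_pos_iff.2 gc_ne
    positivity
  have h4 : 0 < ‖Pf k - conj lam * Qf k‖ ^ 2 - ‖Qf k - lam * Pf k‖ ^ 2 := by
    by_contra hcon
    push Not at hcon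
    nlinarith
  nlinarith [norm_nonneg (Pf k - conj lam * Qf k), norm_nonneg (Qf k - lam * Pf k)]

lemma Gf_norm_le {k : ℂ} (ha : 0 ≤ k.re) (hb : 0 ≤ k.im) : ‖Gf k‖ ≤ ‖gc‖ * (4 * Real.exp (2 * ‖k‖)) := by
  unfold Gf
  have h1 := comb_norm_le conj_lam_le (Qf_norm_le k) (Rf_norm_le k)
  have h2 := den_ge ha hb
  have h3 : 0 < ‖gc‖ := norm_pos_iff.2 gc_ne
  rw [norm_div, div_le_iff₀ (norm_pos_iff.2 (den_ne ha hb))]
  calc ‖Qf k - conj lam * Rf k‖ ≤ 2 * (2 * Real.exp (2 * ‖k‖)) := h1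
    _ = (‖gc‖ * (4 * Real.exp (2 * ‖k‖))) * (1 / ‖gc‖) := by field_simp; ring
    _ ≤ _ := by gcongr

lemma num_differentiable : Differentiable ℂ (fun k => Qf k - conj lam * Rf k) := by
  have h1 := Rf_differentiable
  have h2 := Qf_differentiable
  fun_prop

lemma den_differentiable : Differentiable ℂ (fun k => Pf k - conj lam * Qf k) := by
  have h1 := Pf_differentiable
  have h2 := Qf_differentiable
  fun_prop

lemma Gf_differentiableAt {k : ℂ} (ha : 0 ≤ k.re) (hb : 0 ≤ k.im) : DifferentiableAt ℂ Gf k :=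
  (num_differentiable k).div (den_differentiable k) (den_ne ha hb)

lemma Gf_le_one {k : ℂ} (ha : 0 ≤ k.re) (hb : 0 ≤ k.im) : ‖Gf k‖ ≤ 1 := by
  refine PhragmenLindelof.quadrant_I (f := Gf) ?_ ?_ ?_ ?_ ha hb
  · refine ⟨fun z hz => ?_, ?_⟩
    · have hz' : 0 < z.re ∧ 0 < z.im := by
        simpa [Complex.mem_reProdIm] using hz
      exact (Gf_differentiableAt hz'.1.le hz'.2.le).differentiableWithinAt
    · intro z hz
      rw [Complex.closure_reProdIm, closure_Ioi, Complex.mem_reProdIm] at hz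
      exact (Gf_differentiableAt hz.1 hz.2).continuousAt.continuousWithinAt
  · refine ⟨1, by norm_num, 2, ?_⟩
    refine Asymptotics.IsBigO.of_bound (‖gc‖ * 4) ?_
    have : ∀ᶠ z in Bornology.cobounded ℂ ⊓ 𝓟 (Ioi 0 ×ℂ Ioi 0), z ∈ Ioi (0:ℝ) ×ℂ Ioi (0:ℝ) :=
      mem_inf_of_right (mem_principal_self _)
    filter_upwards [this] with z hz
    have hz' : 0 < z.re ∧ 0 < z.im := by
      simpa [Complex.mem_reProdIm] using hz
    rw [Real.rpow_one, Real.norm_of_nonneg (Real.exp_pos _).le, mul_assoc]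
    exact Gf_norm_le hz'.1.le hz'.2.le
  · intro x hx
    exact Gf_bdry (by simpa using hx) (by simp) (by simp)
  · intro x hx
    exact Gf_bdry (by simp) (by simpa using hx) (by simp)

/-- the analytic function with the symbol as boundary values -/
noncomputable def Fn (z : ℂ) : ℂ := conj gc / gc * Gf (kk z)

lemma Fn_le {z : ℂ} (hz : ‖z‖ ≤ 1) : ‖Fn z‖ ≤ 1 := by
  unfold Fn
  rw [norm_mul, norm_div, Complex.norm_conj, div_self (norm_ne_zero_iff.2 gc_ne), one_mul]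
  exact Gf_le_one (kk_nonneg hz).1 (kk_nonneg hz).2

lemma Fn_differentiableAt {z : ℂ} (hz : ‖z‖ < 1) : DifferentiableAt ℂ Fn z := by
  unfold Fn
  refine (differentiableAt_const _).mul ?_
  exact DifferentiableAt.comp (g := Gf) z (Gf_differentiableAt (kk_nonneg hz.le).1 (kk_nonneg hz.le).2)
    (kk_differentiableAt hz)

lemma Fn_continuousAt {z : ℂ} (hz : ‖z‖ ≤ 1) (h1 : z ≠ 1) : ContinuousAt Fn z := by
  unfold Fn
  refine continuousAt_const.mul ?_
  exact ContinuousAt.comp (g := Gf) (Gf_differentiableAt (kk_nonneg hz).1 (kk_nonneg hz).2).continuousAt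
    (kk_continuousAt hz h1)

lemma Fn_bdry {z : ℂ} (hz : ‖z‖ = 1) : (conj (an z))⁻¹ * (conj (bn z) * an z) = Fn z := by
  have hk := kk_bdry hz
  have hn := kk_nonneg hz.le
  have h1 : Qf (kk z) - conj lam * Rf (kk z) = conj (Qf (kk z) - lam * Pf (kk z)) := by
    obtain ⟨h1, h2, h3⟩ := bdry_conj hk
    rw [map_sub, map_mul, h1, h2]
  have hP := Pn_ne hn.1 hn.2
  have hP' : conj (Pn (kk z)) ≠ 0 := (map_ne_zero _).2 hP
  unfold Fn Gf an bn
  rw [h1, map_inv₀, inv_inv, map_div₀]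
  have h2 : conj (Pn (kk z)) * (conj (Qn (kk z)) / conj (Pn (kk z)) * (Pn (kk z))⁻¹) = conj (Qn (kk z)) / Pn (kk z) := by
    field_simp
  rw [h2]
  unfold Qn Pn
  rw [map_mul]
  have hg := gc_ne
  have hd := den_ne hn.1 hn.2
  field_simp

end Pool.Agent.N279.AAK
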