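import Pool.Agent.Helper630.Szego.Defs

/-!
# Definitions for MP_0d9f0f_an

The spectral factors, the symbol `f₀`, the Hankel operator `Γ` and the functions `P_+(z, ρ)`,
`q_+(z, ρ)` attached to a function `χ` of the class `B⁰_Sz(M, N)`.
-/

open MeasureTheory Filter Topology
open Pool.Agent.Helper630.Szego
open scoped ENNReal

namespace Pool.Agent.N279.AAK

open ContinuousLinearMap (adjoint)

variable {N M : Type*} [NormedAddCommGroup N] [InnerProductSpace ℂ N] [CompleteSpace N]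
  [NormedAddCommGroup M] [InnerProductSpace ℂ M] [CompleteSpace M]

/-- The Hilbert space `ℓ²(N)` of square summable sequences (indexed from `0`) in `N`. -/
def ell2 (N : Type*) [NormedAddCommGroup N] : Type _ := lp (fun _ : ℕ => N) 2

/-- the norm of `ℓ²(N)` -/
noncomputable instance ell2Norm (N : Type*) [NormedAddCommGroup N] : NormedAddCommGroup (ell2 N) :=
  (lp.normedAddCommGroup : NormedAddCommGroup (lp (fun _ : ℕ => N) 2))

/-- the inner product of `ℓ²(N)` -/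
noncomputable instance ell2Inner (N : Type*) [NormedAddCommGroup N] [InnerProductSpace ℂ N] :
    InnerProductSpace ℂ (ell2 N) :=
  (lp.instInnerProductSpace : InnerProductSpace ℂ (lp (fun _ : ℕ => N) 2))

/-- completeness of `ℓ²(N)` -/
instance ell2Complete (N : Type*) [NormedAddCommGroup N] [CompleteSpace N] : CompleteSpace (ell2 N) :=
  (lp.completeSpace : CompleteSpace (lp (fun _ : ℕ => N) 2))

/-- The embedding of `N` in `ℓ²(N)` as the space of sequences which vanish off the place `k`; for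
`k = 0` it is `ξ ↦ e_ξ = (ξ, 0, 0, …)`. -/
noncomputable def emb (N : Type*) [NormedAddCommGroup N] [InnerProductSpace ℂ N] (k : ℕ) :
    N →L[ℂ] ell2 N :=
  lp.singleContinuousLinearMap ℂ (fun _ : ℕ => N) 2 k

/-- The `j`-th coordinate of a sequence in `ℓ²(N)`. -/
noncomputable def coord (N : Type*) [NormedAddCommGroup N] [InnerProductSpace ℂ N] (j : ℕ) :
    ell2 N →L[ℂ] N :=
  lp.evalCLM ℂ (fun _ : ℕ => N) 2 j

/-- The operator `h = (ξ_j) ↦ h_+(z) = ∑ ξ_j z ^ j` (indices from `0`), for `|z| < 1`. -/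
noncomputable def plusAt (N : Type*) [NormedAddCommGroup N] [InnerProductSpace ℂ N] (z : ℂ) :
    ell2 N →L[ℂ] N :=
  ∑' j : ℕ, z ^ j • coord N j

/-- The class `B⁰_Sz(M,N)`: `χ ∈ B⁰(M,N)` with `log det (I - χ* χ)` integrable on the circle. -/
def InBSz (χ : ℂ → M →L[ℂ] N) : Prop :=
  InB0 χ ∧ ∃ X : TT → M →L[ℂ] N, IsBoundary χ X ∧ (∀ᵐ θ, 0 < szDet (X θ)) ∧
    Integrable (fun θ => Real.log (szDet (X θ)))

/-- `A` is an outer function in the class `B(N,N)`, with boundary function `Y`: its determinant does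
not vanish at `0`, `log |det Y|` is integrable, and `log |det A(0)|` is the mean of `log |det Y|`
over the circle (that is, `det A` is an outer function). -/
structure IsOuter (A : ℂ → N →L[ℂ] N) (Y : TT → N →L[ℂ] N) : Prop where
  mem : InB A
  boundary : IsBoundary A Y
  det_ne : (A 0).det ≠ 0
  integrable : Integrable (fun θ => Real.log ‖(Y θ).det‖)
  log_det : Real.log ‖(A 0).det‖ = (2 * Real.pi)⁻¹ * ∫ θ : TT, Real.log ‖(Y θ).det‖

/-- `A = P_+⁻¹` (boundary function `Y`) and `B = (P_-⁻¹)*` (boundary function `Z`) are the outer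
functions, non-negative at the origin, in `B(N,N)` and `B(M,M)`, with
`I - χ χ* = P_+⁻¹ (P_+⁻¹)*` and `I - χ* χ = P_-⁻¹ (P_-⁻¹)*` on the circle, where `X` is the
boundary function of `χ`. -/
structure IsFactorPair (X : TT → M →L[ℂ] N) (A : ℂ → N →L[ℂ] N) (Y : TT → N →L[ℂ] N)
    (B : ℂ → M →L[ℂ] M) (Z : TT → M →L[ℂ] M) : Prop where
  outer_left : IsOuter A Y
  pos_left : (A 0).IsPositive
  eq_left : ∀ᵐ θ, 1 - (X θ).comp (adjoint (X θ)) = (Y θ).comp (adjoint (Y θ))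
  outer_right : IsOuter B Z
  pos_right : (B 0).IsPositive
  eq_right : ∀ᵐ θ, 1 - (adjoint (X θ)).comp (X θ) = (adjoint (Z θ)).comp (Z θ)

/-- The symbol `f₀ = q_- P_+⁻¹ = P_- χ* P_+⁻¹` on the circle; here `P_- = (Z*)⁻¹` and
`P_+⁻¹ = Y`. -/
noncomputable def symb (X : TT → M →L[ℂ] N) (Y : TT → N →L[ℂ] N) (Z : TT → M →L[ℂ] M) (θ : TT) :
    N →L[ℂ] M :=
  (Ring.inverse (adjoint (Z θ))).comp ((adjoint (X θ)).comp (Y θ))

/-- The Fourier coefficient `∫ f(ζ) ζ^{-k} dm(ζ)` of an operator valued function. -/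
noncomputable def coeff (f : TT → N →L[ℂ] M) (k : ℤ) : N →L[ℂ] M :=
  ((2 * Real.pi)⁻¹ : ℝ) • ∫ θ : TT, (pt θ) ^ (-k) • f θ

/-- `Γ : ℓ²(N) → ℓ²(M)` is the Hankel operator with block matrix `(f̂(-j-k+1))`, `j, k ≥ 1`; with
indices starting at `0` the entries are `f̂(-(j+k+1))`. -/
def IsHankel (f : TT → N →L[ℂ] M) (Γ : ell2 N →L[ℂ] ell2 M) : Prop :=
  ∀ (j k : ℕ) (ξ : N), coord M j (Γ (emb N k ξ)) = coeff f (-((j : ℤ) + k + 1)) ξ

section general

variable {H K : Type*} [NormedAddCommGroup H] [InnerProductSpace ℂ H] [CompleteSpace H]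
  [NormedAddCommGroup K] [InnerProductSpace ℂ K] [CompleteSpace K]

/-- The operator `(I - ρ² T* T)⁻¹` on `H`, for `T : H → K`. -/
noncomputable def resol (T : H →L[ℂ] K) (ρ : ℝ) : H →L[ℂ] H :=
  Ring.inverse (1 - ((ρ : ℂ) ^ 2) • (adjoint T).comp T)

/-- The operator `(I - ρ² T T*)⁻¹` on `K`, for `T : H → K`. -/
noncomputable def resolAdj (T : H →L[ℂ] K) (ρ : ℝ) : K →L[ℂ] K :=
  Ring.inverse (1 - ((ρ : ℂ) ^ 2) • T.comp (adjoint T))

/-- The operator `T* (I - ρ² T T*)⁻¹ : K → H`, for `T : H → K`. -/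
noncomputable def adjResol (T : H →L[ℂ] K) (ρ : ℝ) : K →L[ℂ] H :=
  (adjoint T).comp (resolAdj T ρ)

/-- For an isometric embedding `J` of `N` in `H`: the positive square root of the inverse of the
compression `J* R J` of `R` to the image of `J`, as an operator on `N`. -/
noncomputable def halfPow (J : N →L[ℂ] H) (R : H →L[ℂ] H) : N →L[ℂ] N :=
  CFC.sqrt (Ring.inverse ((adjoint J).comp (R.comp J)))

end general

/-- `P_+(z, ρ)`, that is `ξ ↦ [(I - ρ² Γ* Γ)⁻¹ N^{1/2}(ρ) e_ξ]_+(z)`. -/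
noncomputable def Pplus (Γ : ell2 N →L[ℂ] ell2 M) (ρ : ℝ) (z : ℂ) : N →L[ℂ] N :=
  (plusAt N z).comp ((resol Γ ρ).comp ((emb N 0).comp (halfPow (emb N 0) (resol Γ ρ))))

/-- `q_+(z, ρ)`, that is `η ↦ ρ z [Γ* (I - ρ² Γ Γ*)⁻¹ M^{1/2}(ρ) e_η]_+(z)`. -/
noncomputable def qplus (Γ : ell2 N →L[ℂ] ell2 M) (ρ : ℝ) (z : ℂ) : M →L[ℂ] N :=
  ((ρ : ℂ) * z) • (plusAt N z).comp ((adjResol Γ ρ).comp
    ((emb M 0).comp (halfPow (emb M 0) (resolAdj Γ ρ))))

/-- `X, A, Y, B, Z, Γ` are the objects attached to `χ`: the boundary function, the two outer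
factors with their boundary functions, and the Hankel operator of the symbol `f₀`. -/
structure IsData (χ : ℂ → M →L[ℂ] N) (X : TT → M →L[ℂ] N) (A : ℂ → N →L[ℂ] N)
    (Y : TT → N →L[ℂ] N) (B : ℂ → M →L[ℂ] M) (Z : TT → M →L[ℂ] M)
    (Γ : ell2 N →L[ℂ] ell2 M) : Prop where
  boundary : IsBoundary χ X
  factors : IsFactorPair X A Y B Z
  hankel : IsHankel (symb X Y Z) Γ

end Pool.Agent.N279.AAK
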