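import Mathlib

/-!
The entire functions of the counterexample (in the variable `k`, a square root of the variable of
the upper half plane).
-/

open Complex Filter Topology

namespace Pool.Agent.N279.AAK

lemma norm_sin_le' (k : ℂ) : ‖Complex.sin k‖ ≤ Real.exp ‖k‖ := by
  have h : Complex.sin k = (Complex.exp (-k * I) - Complex.exp (k * I)) * I / 2 := rfl
  rw [h, norm_div, norm_mul, norm_I, mul_one, Complex.norm_ofNat]
  have h1 : ‖Complex.exp (-k * I)‖ ≤ Real.exp ‖k‖ := by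
    refine (Complex.norm_exp_le_exp_norm _).trans ?_
    simp
  have h2 : ‖Complex.exp (k * I)‖ ≤ Real.exp ‖k‖ := by
    refine (Complex.norm_exp_le_exp_norm _).trans ?_
    simp
  have h3 := norm_sub_le (Complex.exp (-k * I)) (Complex.exp (k * I))
  rw [div_le_iff₀ (by norm_num)]
  linarith

lemma norm_cos_le' (k : ℂ) : ‖Complex.cos k‖ ≤ Real.exp ‖k‖ := by
  have h : Complex.cos k = (Complex.exp (k * I) + Complex.exp (-k * I)) / 2 := rfl
  rw [h, norm_div, Complex.norm_ofNat]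
  have h1 : ‖Complex.exp (-k * I)‖ ≤ Real.exp ‖k‖ := by
    refine (Complex.norm_exp_le_exp_norm _).trans ?_
    simp
  have h2 : ‖Complex.exp (k * I)‖ ≤ Real.exp ‖k‖ := by
    refine (Complex.norm_exp_le_exp_norm _).trans ?_
    simp
  have h3 := norm_add_le (Complex.exp (k * I)) (Complex.exp (-k * I))
  rw [div_le_iff₀ (by norm_num)]
  linarith

/-- the entire function `sin k / k` -/
noncomputable def Sf : ℂ → ℂ := dslope Complex.sin 0

lemma Sf_mul (k : ℂ) : k * Sf k = Complex.sin k := by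
  have h := sub_smul_dslope Complex.sin 0 k
  simp only [sub_zero, Complex.sin_zero, smul_eq_mul] at h
  exact h

lemma Sf_ne (k : ℂ) (hk : k ≠ 0) : Sf k = Complex.sin k / k := by
  rw [← Sf_mul k]; field_simp

lemma Sf_zero : Sf 0 = 1 := by
  unfold Sf
  rw [dslope_same, Complex.deriv_sin, Complex.cos_zero]

lemma Sf_differentiable : Differentiable ℂ Sf := by
  rw [← differentiableOn_univ]
  exact (Complex.differentiableOn_dslope (f := Complex.sin) (c := 0) Filter.univ_mem).2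
    Complex.differentiable_sin.differentiableOn

lemma Sf_norm_le (k : ℂ) : ‖Sf k‖ ≤ Real.exp ‖k‖ := by
  by_cases hk : k = 0
  · rw [hk, Sf_zero]; simp
  · have h1 : ‖Complex.sin k - Complex.sin 0‖ ≤ Real.exp ‖k‖ * ‖k - 0‖ := by
      refine Convex.norm_image_sub_le_of_norm_deriv_le (s := Metric.closedBall (0:ℂ) ‖k‖) (fun x _ => ?_) (fun x hx => ?_)
        (convex_closedBall _ _) (by simp) (by simp)
      · exact Complex.differentiableAt_sin
      · rw [Complex.deriv_sin]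
        refine (norm_cos_le' x).trans (Real.exp_le_exp.2 ?_)
        simpa using hx
    rw [Complex.sin_zero, sub_zero, sub_zero] at h1
    rw [Sf_ne k hk, norm_div, div_le_iff₀ (norm_pos_iff.2 hk)]
    exact h1

/-- the entire function `P` -/
noncomputable def Pf (k : ℂ) : ℂ := ((1 + k ^ 2) * Sf k + 2 * I * Complex.cos k) / 2

/-- the entire function `q` -/
noncomputable def Qf (k : ℂ) : ℂ := (1 - k ^ 2) * Sf k / 2

/-- the entire function `P^#` -/
noncomputable def Rf (k : ℂ) : ℂ := ((1 + k ^ 2) * Sf k - 2 * I * Complex.cos k) / 2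

lemma Pf_differentiable : Differentiable ℂ Pf := by
  unfold Pf
  have h1 := Sf_differentiable
  have h2 := Complex.differentiable_cos
  fun_prop

lemma Qf_differentiable : Differentiable ℂ Qf := by
  unfold Qf
  have h1 := Sf_differentiable
  fun_prop

lemma Rf_differentiable : Differentiable ℂ Rf := by
  unfold Rf
  have h1 := Sf_differentiable
  have h2 := Complex.differentiable_cos
  fun_prop

lemma PR_id (k : ℂ) : Pf k * Rf k - Qf k ^ 2 = 1 := by
  unfold Pf Rf Qf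
  have h1 := Sf_mul k
  have h2 := Complex.sin_sq_add_cos_sq k
  rw [← h1] at h2
  linear_combination h2 - (Complex.cos k) ^ 2 * Complex.I_sq

lemma one_add_sq_le (x : ℝ) (hx : 0 ≤ x) : 1 + x ^ 2 ≤ 2 * Real.exp x := by
  have h := Real.quadratic_le_exp_of_nonneg hx
  nlinarith

lemma poly_norm_le (k : ℂ) : ‖(1 + k ^ 2) * Sf k‖ ≤ 2 * Real.exp (2 * ‖k‖) ∧
    ‖(1 - k ^ 2) * Sf k‖ ≤ 2 * Real.exp (2 * ‖k‖) := by
  have h0 := one_add_sq_le ‖k‖ (norm_nonneg _)
  have h1 : ‖1 + k ^ 2‖ ≤ 2 * Real.exp ‖k‖ := by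
    refine (norm_add_le _ _).trans ?_
    rw [norm_one, norm_pow]; exact h0
  have h2 : ‖1 - k ^ 2‖ ≤ 2 * Real.exp ‖k‖ := by
    refine (norm_sub_le _ _).trans ?_
    rw [norm_one, norm_pow]; exact h0
  have h3 := Sf_norm_le k
  have h4 : Real.exp (2 * ‖k‖) = Real.exp ‖k‖ * Real.exp ‖k‖ := by
    rw [← Real.exp_add]; ring_nf
  rw [norm_mul, norm_mul, h4]
  constructor
  · calc ‖1 + k ^ 2‖ * ‖Sf k‖ ≤ (2 * Real.exp ‖k‖) * Real.exp ‖k‖ := by gcongr
      _ = _ := by ring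
  · calc ‖1 - k ^ 2‖ * ‖Sf k‖ ≤ (2 * Real.exp ‖k‖) * Real.exp ‖k‖ := by gcongr
      _ = _ := by ring

lemma two_cos_le (k : ℂ) : ‖2 * I * Complex.cos k‖ ≤ 2 * Real.exp (2 * ‖k‖) := by
  rw [norm_mul, norm_mul, norm_I, Complex.norm_ofNat, mul_one]
  have h1 := norm_cos_le' k
  have h2 : Real.exp ‖k‖ ≤ Real.exp (2 * ‖k‖) := Real.exp_le_exp.2 (by linarith [norm_nonneg k])
  linarith

lemma Pf_norm_le (k : ℂ) : ‖Pf k‖ ≤ 2 * Real.exp (2 * ‖k‖) := by
  unfold Pf
  rw [norm_div, Complex.norm_ofNat, div_le_iff₀ (by norm_num)]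
  have h1 := (poly_norm_le k).1
  have h2 := two_cos_le k
  have h3 := norm_add_le ((1 + k ^ 2) * Sf k) (2 * I * Complex.cos k)
  linarith

lemma Rf_norm_le (k : ℂ) : ‖Rf k‖ ≤ 2 * Real.exp (2 * ‖k‖) := by
  unfold Rf
  rw [norm_div, Complex.norm_ofNat, div_le_iff₀ (by norm_num)]
  have h1 := (poly_norm_le k).1
  have h2 := two_cos_le k
  have h3 := norm_sub_le ((1 + k ^ 2) * Sf k) (2 * I * Complex.cos k)
  linarith

lemma Qf_norm_le (k : ℂ) : ‖Qf k‖ ≤ 2 * Real.exp (2 * ‖k‖) := by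
  unfold Qf
  rw [norm_div, Complex.norm_ofNat, div_le_iff₀ (by norm_num)]
  have h1 := (poly_norm_le k).2
  have h2 := Real.exp_pos (2 * ‖k‖)
  linarith

lemma quad_aux (a b x y sa ca sh ch : ℝ) (hsc : sa ^ 2 + ca ^ 2 = 1) (hch : ch ^ 2 = 1 + sh ^ 2)
    (hu : a * x - b * y = sa * ch) (hv : b * x + a * y = ca * sh) :
    (a ^ 2 + b ^ 2) * ((((1 + (a ^ 2 - b ^ 2)) * x - 2 * a * b * y + 2 * sa * sh) / 2) ^ 2 +
        (((1 + (a ^ 2 - b ^ 2)) * y + 2 * a * b * x + 2 * ca * ch) / 2) ^ 2 -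
        ((((1 - (a ^ 2 - b ^ 2)) * x + 2 * a * b * y) / 2) ^ 2 +
        (((1 - (a ^ 2 - b ^ 2)) * y - 2 * a * b * x) / 2) ^ 2)) =
      a ^ 2 * (ch ^ 2 + sh ^ 2) + b ^ 2 * (2 * ca ^ 2 - 1) +
        (a ^ 2 + b ^ 2) * (a * (2 * sh * ch) + b * (2 * sa * ca)) / 2 +
        (a * (2 * sh * ch) - b * (2 * sa * ca)) / 2 := by
  have e0 : (a ^ 2 + b ^ 2) * ((((1 + (a ^ 2 - b ^ 2)) * x - 2 * a * b * y + 2 * sa * sh) / 2) ^ 2 +
        (((1 + (a ^ 2 - b ^ 2)) * y + 2 * a * b * x + 2 * ca * ch) / 2) ^ 2 -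
        ((((1 - (a ^ 2 - b ^ 2)) * x + 2 * a * b * y) / 2) ^ 2 +
        (((1 - (a ^ 2 - b ^ 2)) * y - 2 * a * b * x) / 2) ^ 2)) =
      (a ^ 2 - b ^ 2) * ((a * x - b * y) ^ 2 + (b * x + a * y) ^ 2) +
      (a ^ 2 + b ^ 2) * ((sa * sh) ^ 2 + (ca * ch) ^ 2) +
      (a ^ 2 + b ^ 2) * ((a * (a * x - b * y) - b * (b * x + a * y)) * (sa * sh) +
        (a * (b * x + a * y) + b * (a * x - b * y)) * (ca * ch)) +
      ((a * (a * x - b * y) + b * (b * x + a * y)) * (sa * sh) +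
        (a * (b * x + a * y) - b * (a * x - b * y)) * (ca * ch)) := by ring
  rw [e0, hu, hv]
  have e1 : (sa * ch) ^ 2 + (ca * sh) ^ 2 = sa ^ 2 + sh ^ 2 := by
    linear_combination sa ^ 2 * hch + sh ^ 2 * hsc
  have e2 : (sa * sh) ^ 2 + (ca * ch) ^ 2 = ca ^ 2 + sh ^ 2 := by
    linear_combination ca ^ 2 * hch + sh ^ 2 * hsc
  have e3 : (a * (sa * ch) - b * (ca * sh)) * (sa * sh) + (a * (ca * sh) + b * (sa * ch)) * (ca * ch) =
      a * sh * ch + b * sa * ca := by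
    linear_combination a * sh * ch * hsc + b * sa * ca * hch
  have e4 : (a * (sa * ch) + b * (ca * sh)) * (sa * sh) + (a * (ca * sh) - b * (sa * ch)) * (ca * ch) =
      a * sh * ch - b * sa * ca := by
    linear_combination a * sh * ch * hsc - b * sa * ca * hch
  rw [e1, e2, e3, e4]
  linear_combination (a ^ 2 - b ^ 2) * hsc - a ^ 2 * hch

/-- the basic quadratic identity, after multiplication by `|k|²` -/
lemma quad_identity (a b : ℝ) :
    (a ^ 2 + b ^ 2) * (‖Pf (a + b * I)‖ ^ 2 - ‖Qf (a + b * I)‖ ^ 2) =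
      a ^ 2 * Real.cosh (2 * b) + b ^ 2 * Real.cos (2 * a) +
        (a ^ 2 + b ^ 2) * (a * Real.sinh (2 * b) + b * Real.sin (2 * a)) / 2 +
        (a * Real.sinh (2 * b) - b * Real.sin (2 * a)) / 2 := by
  have hs := Sf_mul (a + b * I)
  rw [Complex.sin_add_mul_I] at hs
  have hu := congrArg Complex.re hs
  have hv := congrArg Complex.im hs
  have hc : Complex.cos (a + b * I) = ((Real.cos a * Real.cosh b : ℝ) : ℂ) - ((Real.sin a * Real.sinh b : ℝ) : ℂ) * I := by
    rw [Complex.cos_add_mul_I]; push_cast; ring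
  have hs' : Complex.sin a * Complex.cosh b + Complex.cos a * Complex.sinh b * I =
      ((Real.sin a * Real.cosh b : ℝ) : ℂ) + ((Real.cos a * Real.sinh b : ℝ) : ℂ) * I := by push_cast; ring
  rw [hs'] at hu hv
  simp only [mul_re, mul_im, add_re, add_im, ofReal_re, ofReal_im, I_re, I_im, mul_zero, mul_one,
    sub_zero, zero_add, add_zero, sub_self] at hu hv
  have hsc : Real.sin a ^ 2 + Real.cos a ^ 2 = 1 := Real.sin_sq_add_cos_sq a
  have hch : Real.cosh b ^ 2 = 1 + Real.sinh b ^ 2 := by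
    have := Real.cosh_sq b
    linarith
  have key := quad_aux a b (Sf (a + b * I)).re (Sf (a + b * I)).im (Real.sin a) (Real.cos a) (Real.sinh b)
    (Real.cosh b) hsc hch (by linarith) (by linarith)
  have hw : ((a : ℂ) + b * I) ^ 2 = ((a ^ 2 - b ^ 2 : ℝ) : ℂ) + ((2 * a * b : ℝ) : ℂ) * I := by
    push_cast
    linear_combination (b : ℂ) ^ 2 * Complex.I_sq
  rw [Complex.sq_norm, Complex.sq_norm, Complex.normSq_apply, Complex.normSq_apply]
  have hPr : (Pf (a + b * I)).re = ((1 + (a ^ 2 - b ^ 2)) * (Sf (a + b * I)).re - 2 * a * b * (Sf (a + b * I)).im +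
      2 * Real.sin a * Real.sinh b) / 2 := by
    unfold Pf
    rw [hw, hc]
    have : (2 : ℂ) = ((2 : ℝ) : ℂ) := by norm_num
    rw [this, Complex.div_ofReal_re]
    simp only [mul_re, mul_im, add_re, add_im, sub_re, sub_im, ofReal_re, ofReal_im, I_re, I_im, one_re, one_im]
    ring
  have hPi : (Pf (a + b * I)).im = ((1 + (a ^ 2 - b ^ 2)) * (Sf (a + b * I)).im + 2 * a * b * (Sf (a + b * I)).re +
      2 * Real.cos a * Real.cosh b) / 2 := by
    unfold Pf
    rw [hw, hc]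
    have : (2 : ℂ) = ((2 : ℝ) : ℂ) := by norm_num
    rw [this, Complex.div_ofReal_im]
    simp only [mul_re, mul_im, add_re, add_im, sub_re, sub_im, ofReal_re, ofReal_im, I_re, I_im, one_re, one_im]
    ring
  have hQr : (Qf (a + b * I)).re = ((1 - (a ^ 2 - b ^ 2)) * (Sf (a + b * I)).re + 2 * a * b * (Sf (a + b * I)).im) / 2 := by
    unfold Qf
    rw [hw]
    have : (2 : ℂ) = ((2 : ℝ) : ℂ) := by norm_num
    rw [this, Complex.div_ofReal_re]
    simp only [mul_re, mul_im, add_re, add_im, sub_re, sub_im, ofReal_re, ofReal_im, I_re, I_im, one_re, one_im]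
    ring
  have hQi : (Qf (a + b * I)).im = ((1 - (a ^ 2 - b ^ 2)) * (Sf (a + b * I)).im - 2 * a * b * (Sf (a + b * I)).re) / 2 := by
    unfold Qf
    rw [hw]
    have : (2 : ℂ) = ((2 : ℝ) : ℂ) := by norm_num
    rw [this, Complex.div_ofReal_im]
    simp only [mul_re, mul_im, add_re, add_im, sub_re, sub_im, ofReal_re, ofReal_im, I_re, I_im, one_re, one_im]
    ring
  rw [hPr, hPi, hQr, hQi, Real.cosh_two_mul, Real.cos_two_mul, Real.sinh_two_mul, Real.sin_two_mul, ← key]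
  ring

/-- the basic inequality in the closed quadrant -/
lemma quad_ge (k : ℂ) (ha : 0 ≤ k.re) (hb : 0 ≤ k.im) : 1 ≤ ‖Pf k‖ ^ 2 - ‖Qf k‖ ^ 2 := by
  by_cases h0 : k = 0
  · have h1 : Pf 0 = (1 + 2 * I) / 2 := by
      unfold Pf; rw [Sf_zero]; simp
    have h2 : Qf 0 = 1 / 2 := by
      unfold Qf; rw [Sf_zero]; simp
    rw [h0, h1, h2, Complex.sq_norm, Complex.sq_norm]
    have e1 : Complex.normSq ((1 + 2 * I) / 2) = 5 / 4 := by
      rw [map_div₀, Complex.normSq_apply]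
      norm_num
    have e2 : Complex.normSq ((1 : ℂ) / 2) = 1 / 4 := by
      rw [map_div₀]; norm_num
    rw [e1, e2]; norm_num
  · set a := k.re with hA
    set b := k.im with hB
    have hk : k = a + b * I := (Complex.re_add_im k).symm
    have hn : 0 < a ^ 2 + b ^ 2 := by
      by_contra hcon
      push Not at hcon
      have h1 : a = 0 := by nlinarith [sq_nonneg a, sq_nonneg b]
      have h2 : b = 0 := by nlinarith [sq_nonneg a, sq_nonneg b]
      apply h0
      rw [hk, h1, h2]; simp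
    have h1 := quad_identity a b
    rw [← hk] at h1
    have hsh : b ≤ Real.sinh b := Real.self_le_sinh_iff.2 hb
    have hch1 : 1 ≤ Real.cosh b := Real.one_le_cosh b
    have hsin : Real.sin a ≤ a := Real.sin_le ha
    have hsin2 : -a ≤ Real.sin a := by
      have := Real.sin_le (x := a) ha
      have h3 := Real.abs_sin_le_one
      have h4 : |Real.sin a| ≤ |a| := Real.abs_sin_le_abs
      rw [abs_of_nonneg ha, abs_le] at h4
      exact h4.1
    have c1 : 1 + 2 * b ^ 2 ≤ Real.cosh (2 * b) := by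
      rw [Real.cosh_two_mul, Real.cosh_sq]
      nlinarith
    have c2 : 1 - 2 * a ^ 2 ≤ Real.cos (2 * a) := by
      rw [Real.cos_two_mul, Real.cos_sq']
      nlinarith
    have c3 : 2 * b ≤ Real.sinh (2 * b) := Real.self_le_sinh_iff.2 (by linarith)
    have c4 : |Real.sin (2 * a)| ≤ |2 * a| := Real.abs_sin_le_abs
    rw [abs_of_nonneg (by linarith : (0:ℝ) ≤ 2 * a), abs_le] at c4
    have d1 : a ^ 2 * (1 + 2 * b ^ 2) ≤ a ^ 2 * Real.cosh (2 * b) := by gcongr
    have d2 : b ^ 2 * (1 - 2 * a ^ 2) ≤ b ^ 2 * Real.cos (2 * a) := by gcongr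
    have d3 : a * (2 * b) ≤ a * Real.sinh (2 * b) := by gcongr
    have d4 : b * (-(2 * a)) ≤ b * Real.sin (2 * a) := by gcongr; exact c4.1
    have d5 : b * Real.sin (2 * a) ≤ b * (2 * a) := by gcongr; exact c4.2
    have d6 : 0 ≤ (a ^ 2 + b ^ 2) * (a * Real.sinh (2 * b) + b * Real.sin (2 * a)) / 2 := by
      have : 0 ≤ a * Real.sinh (2 * b) + b * Real.sin (2 * a) := by nlinarith
      positivity
    have h2 : (a ^ 2 + b ^ 2) * 1 ≤ (a ^ 2 + b ^ 2) * (‖Pf k‖ ^ 2 - ‖Qf k‖ ^ 2) := by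
      rw [h1]
      nlinarith
    exact le_of_mul_le_mul_left h2 hn

end Pool.Agent.N279.AAK
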