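import Pool.Agent.N279.AAK.Entire

/-!
More on the entire functions: symmetry and growth along the diagonal.
-/

open Complex Filter Topology
open scoped ComplexConjugate

namespace Pool.Agent.N279.AAK

lemma Sf_neg (k : ℂ) : Sf (-k) = Sf k := by
  by_cases hk : k = 0
  · rw [hk, neg_zero]
  · rw [Sf_ne k hk, Sf_ne (-k) (neg_ne_zero.2 hk), Complex.sin_neg, neg_div_neg_eq]

lemma Sf_conj (k : ℂ) : conj (Sf k) = Sf (conj k) := by
  by_cases hk : k = 0
  · rw [hk, map_zero, Sf_zero, map_one]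
  · have hk' : conj k ≠ 0 := (map_ne_zero _).2 hk
    rw [Sf_ne k hk, Sf_ne _ hk', map_div₀, ← Complex.sin_conj]

lemma conj_eq_or {k : ℂ} (hk : k.re * k.im = 0) : conj k = k ∨ conj k = -k := by
  rcases mul_eq_zero.1 hk with h | h
  · right
    apply Complex.ext <;> simp [h]
  · left
    exact Complex.conj_eq_iff_im.2 h

lemma bdry_conj {k : ℂ} (hk : k.re * k.im = 0) : conj (Pf k) = Rf k ∧ conj (Qf k) = Qf k ∧ conj (Rf k) = Pf k := by
  have h1 : conj (Sf k) = Sf k := by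
    rw [Sf_conj]
    rcases conj_eq_or hk with h | h
    · rw [h]
    · rw [h, Sf_neg]
  have h2 : conj (Complex.cos k) = Complex.cos k := by
    rw [← Complex.cos_conj]
    rcases conj_eq_or hk with h | h
    · rw [h]
    · rw [h, Complex.cos_neg]
  have h3 : conj k ^ 2 = k ^ 2 := by
    rcases conj_eq_or hk with h | h
    · rw [h]
    · rw [h]; ring
  have h4 : conj (2 : ℂ) = 2 := Complex.conj_ofNat 2
  refine ⟨?_, ?_, ?_⟩
  · unfold Pf Rf
    simp only [map_div₀, map_add, map_mul, map_one, map_pow, Complex.conj_I, h1, h2, h3, h4]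
    ring
  · unfold Qf
    simp only [map_div₀, map_sub, map_mul, map_one, map_pow, h1, h3, h4]
  · unfold Pf Rf
    simp only [map_div₀, map_add, map_sub, map_mul, map_one, map_pow, Complex.conj_I, h1, h2, h3, h4]
    ring

/-- on the boundary of the quadrant the quadratic form equals one -/
lemma bdry_eq {k : ℂ} (hk : k.re * k.im = 0) : ‖Pf k‖ ^ 2 - ‖Qf k‖ ^ 2 = 1 := by
  obtain ⟨h1, h2, -⟩ := bdry_conj hk
  have h3 := PR_id k
  have h4 : ((‖Pf k‖ ^ 2 - ‖Qf k‖ ^ 2 : ℝ) : ℂ) = 1 := by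
    push_cast
    rw [← Complex.mul_conj', ← Complex.mul_conj', h1, h2]
    linear_combination h3
  exact_mod_cast h4

lemma norm_exp_I_le (k : ℂ) (hk : 0 ≤ k.im) : ‖Complex.exp (k * I)‖ ≤ Real.exp k.im ∧
    ‖Complex.exp (-k * I)‖ ≤ Real.exp k.im := by
  rw [Complex.norm_exp, Complex.norm_exp]
  constructor
  · apply Real.exp_le_exp.2
    simp; linarith
  · apply Real.exp_le_exp.2
    simp

lemma norm_sin_le_im (k : ℂ) (hk : 0 ≤ k.im) : ‖Complex.sin k‖ ≤ Real.exp k.im := by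
  have h : Complex.sin k = (Complex.exp (-k * I) - Complex.exp (k * I)) * I / 2 := rfl
  rw [h, norm_div, norm_mul, norm_I, mul_one, Complex.norm_ofNat]
  obtain ⟨h1, h2⟩ := norm_exp_I_le k hk
  have h3 := norm_sub_le (Complex.exp (-k * I)) (Complex.exp (k * I))
  rw [div_le_iff₀ (by norm_num)]
  linarith

lemma norm_cos_le_im (k : ℂ) (hk : 0 ≤ k.im) : ‖Complex.cos k‖ ≤ Real.exp k.im := by
  have h : Complex.cos k = (Complex.exp (k * I) + Complex.exp (-k * I)) / 2 := rfl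
  rw [h, norm_div, Complex.norm_ofNat]
  obtain ⟨h1, h2⟩ := norm_exp_I_le k hk
  have h3 := norm_add_le (Complex.exp (k * I)) (Complex.exp (-k * I))
  rw [div_le_iff₀ (by norm_num)]
  linarith

/-- growth along the diagonal -/
lemma diag_bound (lam : ℂ) (hl : ‖lam‖ ≤ 1) (a : ℝ) (ha : 1 ≤ a) :
    ‖Pf (a + a * I) - lam * Qf (a + a * I)‖ ^ 2 ≤ 128 * a * (‖Pf (a + a * I)‖ ^ 2 - ‖Qf (a + a * I)‖ ^ 2) := by
  set k : ℂ := (a : ℂ) + a * I with hk
  have hre : k.re = a := by simp [hk]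
  have him : k.im = a := by simp [hk]
  set E := Real.exp a with hE
  have hE2 : 6 ≤ E ^ 2 := by
    have h1 : Real.exp 1 ≤ E := Real.exp_le_exp.2 ha
    have h2 := Real.exp_one_gt_d9
    nlinarith
  have hE0 : 0 < E := Real.exp_pos a
  have hkn : a ≤ ‖k‖ := by
    have := Complex.abs_re_le_norm k
    rw [hre, abs_of_nonneg (by linarith)] at this
    exact this
  have hk2 : ‖k‖ ^ 2 = 2 * a ^ 2 := by
    rw [Complex.sq_norm, Complex.normSq_apply, hre, him]; ring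
  have hS : ‖Sf k‖ ≤ E / a := by
    have h1 := congrArg norm (Sf_mul k)
    rw [norm_mul] at h1
    have h2 := norm_sin_le_im k (by rw [him]; linarith)
    rw [him, ← h1] at h2
    rw [le_div_iff₀ (by linarith)]
    calc ‖Sf k‖ * a ≤ ‖Sf k‖ * ‖k‖ := by gcongr
      _ = ‖k‖ * ‖Sf k‖ := mul_comm _ _
      _ ≤ E := h2
  have hp1 : ‖(1 + k ^ 2) * Sf k‖ ≤ 3 * a * E := by
    rw [norm_mul]
    have h1 : ‖1 + k ^ 2‖ ≤ 3 * a ^ 2 := by
      refine (norm_add_le _ _).trans ?_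
      rw [norm_one, norm_pow, hk2]; nlinarith
    calc ‖1 + k ^ 2‖ * ‖Sf k‖ ≤ (3 * a ^ 2) * (E / a) := by gcongr
      _ = 3 * a * E := by field_simp
  have hp2 : ‖(1 - k ^ 2) * Sf k‖ ≤ 3 * a * E := by
    rw [norm_mul]
    have h1 : ‖1 - k ^ 2‖ ≤ 3 * a ^ 2 := by
      refine (norm_sub_le _ _).trans ?_
      rw [norm_one, norm_pow, hk2]; nlinarith
    calc ‖1 - k ^ 2‖ * ‖Sf k‖ ≤ (3 * a ^ 2) * (E / a) := by gcongr
      _ = 3 * a * E := by field_simp
  have hc : ‖2 * I * Complex.cos k‖ ≤ 2 * a * E := by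
    rw [norm_mul, norm_mul, norm_I, Complex.norm_ofNat, mul_one]
    have h1 := norm_cos_le_im k (by rw [him]; linarith)
    rw [him] at h1
    have : E ≤ a * E := by nlinarith
    linarith
  have hP : ‖Pf k‖ ≤ 5 * a * E / 2 := by
    unfold Pf
    rw [norm_div, Complex.norm_ofNat, div_le_div_iff_of_pos_right (by norm_num)]
    have h3 := norm_add_le ((1 + k ^ 2) * Sf k) (2 * I * Complex.cos k)
    linarith
  have hQ : ‖Qf k‖ ≤ 3 * a * E / 2 := by
    unfold Qf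
    rw [norm_div, Complex.norm_ofNat, div_le_div_iff_of_pos_right (by norm_num)]
    exact hp2
  have hlQ : ‖lam * Qf k‖ ≤ 3 * a * E / 2 := by
    rw [norm_mul]
    calc ‖lam‖ * ‖Qf k‖ ≤ 1 * ‖Qf k‖ := by gcongr
      _ ≤ _ := by rw [one_mul]; exact hQ
  have hD : ‖Pf k - lam * Qf k‖ ≤ 4 * a * E := by
    refine (norm_sub_le _ _).trans ?_
    linarith
  have hD2 : ‖Pf k - lam * Qf k‖ ^ 2 ≤ (4 * a * E) ^ 2 := by gcongr
  have hq := quad_identity a a
  rw [← hk] at hq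
  have hch : 1 ≤ Real.cosh (2 * a) := Real.one_le_cosh _
  have hcos := Real.neg_one_le_cos (2 * a)
  have hsin := Real.neg_one_le_sin (2 * a)
  have hsin2 := Real.sin_le_one (2 * a)
  have hsh : E ^ 2 / 4 ≤ Real.sinh (2 * a) - 1 := by
    rw [Real.sinh_eq]
    have h1 : Real.exp (2 * a) = E ^ 2 := by
      rw [hE, ← Real.exp_nat_mul]; norm_num
    have h2 : Real.exp (-(2 * a)) ≤ 1 := Real.exp_le_one_iff.2 (by linarith)
    rw [h1]
    linarith
  have ha0 : 0 < a := by linarith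
  have hlow : a * (E ^ 2 / 4) / 2 ≤ ‖Pf k‖ ^ 2 - ‖Qf k‖ ^ 2 := by
    have h1 : 0 ≤ a ^ 2 * Real.cosh (2 * a) + a ^ 2 * Real.cos (2 * a) := by
      have : 0 ≤ a ^ 2 * (Real.cosh (2 * a) + Real.cos (2 * a)) := by
        apply mul_nonneg (sq_nonneg a); linarith
      linarith
    have h2 : 0 ≤ (a * Real.sinh (2 * a) - a * Real.sin (2 * a)) / 2 := by
      have : 0 ≤ a * (Real.sinh (2 * a) - Real.sin (2 * a)) := by
        apply mul_nonneg ha0.le; nlinarith
      linarith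
    have h3 : (a ^ 2 + a ^ 2) * (a * (E ^ 2 / 4)) / 2 ≤
        (a ^ 2 + a ^ 2) * (a * Real.sinh (2 * a) + a * Real.sin (2 * a)) / 2 := by
      have : a * (E ^ 2 / 4) ≤ a * Real.sinh (2 * a) + a * Real.sin (2 * a) := by
        rw [← mul_add]
        gcongr
        linarith
      gcongr
    have h4 : (a ^ 2 + a ^ 2) * (a * (E ^ 2 / 4) / 2) ≤ (a ^ 2 + a ^ 2) * (‖Pf k‖ ^ 2 - ‖Qf k‖ ^ 2) := by
      rw [hq]
      linarith
    exact le_of_mul_le_mul_left h4 (by positivity)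
  calc ‖Pf k - lam * Qf k‖ ^ 2 ≤ (4 * a * E) ^ 2 := hD2
    _ = 128 * a * (a * (E ^ 2 / 4) / 2) := by ring
    _ ≤ _ := by gcongr

end Pool.Agent.N279.AAK
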