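import Pool.Agent.N279.AAK.Ops

/-!
The counterexample for MP_0d9f0f_an.
-/

open MeasureTheory Filter Topology Complex Set
open scoped ENNReal ComplexConjugate
open Pool.Agent.Helper630.Szego

namespace Pool.Agent.N279.AAK

open ContinuousLinearMap (adjoint)

variable {N M : Type*} [NormedAddCommGroup N] [InnerProductSpace ℂ N] [CompleteSpace N]
  [NormedAddCommGroup M] [InnerProductSpace ℂ M] [CompleteSpace M]

/-- the boundary function of `χ` -/
noncomputable def Xb (e : M) (f : N) (θ : TT) : M →L[ℂ] N := bn (pt θ) • PP e f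

lemma chi_bdry (e : M) (f : N) : IsBoundary (chi e f) (Xb e f) := by
  filter_upwards [ae_ne_zero] with θ hθ
  unfold chi Xb
  exact (radial_tendsto (bn_continuousAt (pt_norm θ).le hθ)).smul_const _

/-- the factor on the disc -/
noncomputable def Af (e : M) (z : ℂ) : M →L[ℂ] M := opA e (an z)

/-- its boundary function -/
noncomputable def Yf (e : M) (θ : TT) : M →L[ℂ] M := opA e (an (pt θ))

lemma Af_outer [FiniteDimensional ℂ M] {e : M} (he : ‖e‖ = 1) : IsOuter (Af e) (Yf e) := by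
  have hdet : ∀ θ, ‖(Yf e θ).det‖ = ‖an (pt θ)‖ := fun θ => by
    unfold Yf
    rw [opA_det he]
  have hdet0 : (Af e 0).det = an 0 := by
    unfold Af
    rw [opA_det he]
  refine ⟨⟨fun z hz => ?_, fun z hz => ?_⟩, ?_, ?_, ?_, ?_⟩
  · unfold Af opA
    have h1 := an_differentiableAt (mem_ball_zero_iff.1 hz)
    exact (((h1.sub_const 1).smul_const (PP e e)).const_add 1).differentiableWithinAt
  · exact opA_norm_le he (an_le (mem_ball_zero_iff.1 hz).le)
  · filter_upwards [ae_ne_zero] with θ hθ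
    refine radial_tendsto (f := Af e) ?_
    have h1 := an_continuousAt (pt_norm θ).le hθ
    unfold Af opA
    exact continuousAt_const.add ((h1.sub continuousAt_const).smul continuousAt_const)
  · rw [hdet0]; exact an_ne (by simp)
  · simp_rw [hdet]; exact log_an_integrable
  · simp_rw [hdet]
    rw [hdet0, log_mean_one]
    have := Real.pi_pos
    field_simp

lemma Af_pos {e : M} (he : ‖e‖ = 1) : (Af e 0).IsPositive := by
  obtain ⟨t, ht, h⟩ := an_zero
  unfold Af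
  rw [h]
  exact opA_isPositive he ht.le

lemma bn_an_sq (θ : TT) : (1 : ℂ) - bn (pt θ) * conj (bn (pt θ)) = an (pt θ) * conj (an (pt θ)) := by
  have h := ab_eq (pt_norm θ)
  rw [Complex.mul_conj', Complex.mul_conj']
  have h2 : ((‖an (pt θ)‖ ^ 2 + ‖bn (pt θ)‖ ^ 2 : ℝ) : ℂ) = 1 := by rw [h]; simp
  push_cast at h2
  linear_combination -h2

lemma adjoint_Xb (e : M) (f : N) (θ : TT) : adjoint (Xb e f θ) = conj (bn (pt θ)) • PP f e := by
  unfold Xb
  rw [LinearIsometryEquiv.map_smulₛₗ, adjoint_PP]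

lemma fac_left {e : M} {f : N} (he : ‖e‖ = 1) (hf : ‖f‖ = 1) (θ : TT) :
    1 - (Xb e f θ).comp (adjoint (Xb e f θ)) = (Yf f θ).comp (adjoint (Yf f θ)) := by
  have h1 : (Xb e f θ).comp (adjoint (Xb e f θ)) = (bn (pt θ) * conj (bn (pt θ))) • PP f f := by
    rw [adjoint_Xb]
    unfold Xb
    rw [ContinuousLinearMap.smul_comp, ContinuousLinearMap.comp_smul, PP_comp, inner_self_one he, one_smul, smul_smul]
  rw [h1, one_sub_PP, bn_an_sq]
  unfold Yf
  rw [adjoint_opA, opA_comp hf]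

lemma fac_right {e : M} {f : N} (he : ‖e‖ = 1) (hf : ‖f‖ = 1) (θ : TT) :
    1 - (adjoint (Xb e f θ)).comp (Xb e f θ) = (adjoint (Yf e θ)).comp (Yf e θ) := by
  have h1 : (adjoint (Xb e f θ)).comp (Xb e f θ) = (bn (pt θ) * conj (bn (pt θ))) • PP e e := by
    rw [adjoint_Xb]
    unfold Xb
    rw [ContinuousLinearMap.smul_comp, ContinuousLinearMap.comp_smul, PP_comp, inner_self_one hf, one_smul, smul_smul,
      mul_comm]
  rw [h1, one_sub_PP, bn_an_sq]
  unfold Yf
  rw [adjoint_opA, opA_comp he, mul_comm]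

lemma symb_eq {e : M} {f : N} (he : ‖e‖ = 1) (hf : ‖f‖ = 1) (θ : TT) :
    symb (Xb e f) (Yf f) (Yf e) θ = Fn (pt θ) • PP f e := by
  unfold symb
  rw [adjoint_Xb]
  unfold Yf
  rw [adjoint_opA, opA_inverse he ((map_ne_zero _).2 (an_ne (pt_norm θ).le)), ← Fn_bdry (pt_norm θ)]
  ext x
  rw [ContinuousLinearMap.comp_apply, ContinuousLinearMap.comp_apply, smul_apply, smul_apply, PP_apply, PP_apply,
    opA_apply, opA_apply, inner_add_right, inner_smul_right, inner_self_one hf, smul_smul, smul_smul, inner_smul_right,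
    inner_self_one he, ← add_smul]
  congr 1
  ring_nf

lemma hankel_zero {e : M} {f : N} (he : ‖e‖ = 1) (hf : ‖f‖ = 1) :
    IsHankel (symb (Xb e f) (Yf f) (Yf e)) (0 : ell2 N →L[ℂ] ell2 M) := by
  intro j k ξ
  have h1 : coeff (symb (Xb e f) (Yf f) (Yf e)) (-((j : ℤ) + k + 1)) = 0 := by
    unfold coeff
    have h2 : ∀ θ : TT, pt θ ^ (-(-((j : ℤ) + k + 1))) • symb (Xb e f) (Yf f) (Yf e) θ =
        (pt θ ^ (j + k + 1) * Fn (pt θ)) • PP f e := by
      intro θ
      rw [symb_eq he hf, smul_smul, neg_neg]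
      have h3 : ((j : ℤ) + k + 1) = ((j + k + 1 : ℕ) : ℤ) := by push_cast; ring
      rw [h3, zpow_natCast]
    simp_rw [h2]
    rw [integral_smul_const, Fn_coeff, zero_smul, smul_zero]
  rw [h1]
  rfl

lemma isData {e : M} {f : N} [FiniteDimensional ℂ N] [FiniteDimensional ℂ M] (he : ‖e‖ = 1) (hf : ‖f‖ = 1) :
    IsData (chi e f) (Xb e f) (Af f) (Yf f) (Af e) (Yf e) (0 : ell2 N →L[ℂ] ell2 M) :=
  ⟨chi_bdry e f, ⟨Af_outer hf, Af_pos hf, ae_of_all _ (fac_left he hf), Af_outer he, Af_pos he,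
    ae_of_all _ (fac_right he hf)⟩, hankel_zero he hf⟩

lemma coord_emb (j : ℕ) (x : N) : coord N j (emb N 0 x) = if j = 0 then x else 0 := by
  have h1 : coord N j (emb N 0 x) = (Pi.single 0 x : ℕ → N) j := rfl
  rw [h1]
  by_cases hj : j = 0
  · subst hj
    rw [if_pos rfl, Pi.single_eq_same]
  · rw [if_neg hj, Pi.single_eq_of_ne hj]

lemma coord_norm_le (j : ℕ) : ‖coord N j‖ ≤ 1 := by
  refine ContinuousLinearMap.opNorm_le_bound _ zero_le_one fun x => ?_
  rw [one_mul]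
  exact lp.norm_apply_le_norm (E := fun _ : ℕ => N) (p := 2) (by norm_num) x j

lemma plusAt_hasSum {z : ℂ} (hz : ‖z‖ < 1) : HasSum (fun j : ℕ => z ^ j • coord N j) (plusAt N z) := by
  refine Summable.hasSum ?_
  refine Summable.of_norm_bounded (summable_geometric_of_lt_one (norm_nonneg z) hz) fun j => ?_
  rw [norm_smul, norm_pow]
  calc ‖z‖ ^ j * ‖coord N j‖ ≤ ‖z‖ ^ j * 1 := by
        gcongr
        exact coord_norm_le j
    _ = _ := mul_one _

lemma plusAt_emb {z : ℂ} (hz : ‖z‖ < 1) : (plusAt N z).comp (emb N 0) = 1 := by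
  refine ContinuousLinearMap.ext fun x => ?_
  rw [ContinuousLinearMap.comp_apply]
  have h1 : HasSum (fun j : ℕ => (z ^ j • coord N j) (emb N 0 x)) (plusAt N z (emb N 0 x)) :=
    (plusAt_hasSum hz).mapL (ContinuousLinearMap.apply ℂ N (emb N 0 x))
  have h2 : HasSum (fun j : ℕ => (z ^ j • coord N j) (emb N 0 x)) x := by
    have h3 : ∀ j : ℕ, (z ^ j • coord N j) (emb N 0 x) = if j = 0 then x else 0 := by
      intro j
      rw [smul_apply, coord_emb]
      by_cases hj : j = 0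
      · rw [if_pos hj, hj, pow_zero, one_smul]
      · rw [if_neg hj, smul_zero]
    simp_rw [h3]
    exact hasSum_ite_eq 0 x
  exact h1.unique h2

lemma emb_norm (x : N) : ‖emb N 0 x‖ = ‖x‖ := by
  have h := lp.norm_single (E := fun _ : ℕ => N) (p := 2) (by norm_num) 0 x
  exact h

lemma resol_zero {H K : Type*} [NormedAddCommGroup H] [InnerProductSpace ℂ H] [CompleteSpace H]
    [NormedAddCommGroup K] [InnerProductSpace ℂ K] [CompleteSpace K] (ρ : ℝ) :
    resol (0 : H →L[ℂ] K) ρ = 1 := by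
  unfold resol
  rw [ContinuousLinearMap.comp_zero, smul_zero, sub_zero, Ring.inverse_one]

lemma halfPow_one : halfPow (emb N 0) (1 : ell2 N →L[ℂ] ell2 N) = 1 := by
  unfold halfPow
  have h1 : (adjoint (emb N 0)).comp ((1 : ell2 N →L[ℂ] ell2 N).comp (emb N 0)) = 1 := by
    have h2 : (1 : ell2 N →L[ℂ] ell2 N).comp (emb N 0) = emb N 0 := ContinuousLinearMap.id_comp _
    rw [h2]
    exact ContinuousLinearMap.norm_map_iff_adjoint_comp_self (emb N 0) |>.1 emb_norm
  rw [h1, Ring.inverse_one, CFC.sqrt_one]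

lemma Pplus_zero (ρ : ℝ) {z : ℂ} (hz : ‖z‖ < 1) : Pplus (0 : ell2 N →L[ℂ] ell2 M) ρ z = 1 := by
  unfold Pplus
  rw [resol_zero, halfPow_one]
  have h2 : (1 : ell2 N →L[ℂ] ell2 N).comp ((emb N 0).comp (1 : N →L[ℂ] N)) = emb N 0 := rfl
  rw [h2, plusAt_emb hz]

lemma qplus_zero (ρ : ℝ) (z : ℂ) : qplus (0 : ell2 N →L[ℂ] ell2 M) ρ z = 0 := by
  unfold qplus adjResol
  rw [map_zero, ContinuousLinearMap.zero_comp, ContinuousLinearMap.zero_comp, ContinuousLinearMap.comp_zero, smul_zero]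

lemma bn_negI : bn (-I) ≠ 0 := by
  have hn : ‖(-I : ℂ)‖ = 1 := by simp
  have hk := kk_nonneg hn.le
  have hsq : kk (-I) ^ 2 = 1 := by
    unfold kk
    rw [tt_sq]
    unfold cay
    have h1 : (1 : ℂ) - -I ≠ 0 := by
      intro h
      have := congrArg Complex.re h
      simp at this
    field_simp
    linear_combination -Complex.I_sq
  have hQ : Qf (kk (-I)) = 0 := by
    unfold Qf
    rw [hsq]; simp
  have hP : Pf (kk (-I)) ≠ 0 := norm_pos_iff.1 (Pf_pos hk.1 hk.2)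
  unfold bn
  refine div_ne_zero ?_ (Pn_ne hk.1 hk.2)
  unfold Qn
  rw [hQ, zero_sub]
  exact mul_ne_zero gc_ne (neg_ne_zero.2 (mul_ne_zero lam_ne hP))

lemma exists_bn_ne : ∃ z ∈ Metric.ball (0:ℂ) 1, bn z ≠ 0 := by
  by_contra hcon
  push Not at hcon
  have h1 : Tendsto (fun r : ℝ => bn (r * (-I))) (𝓝[<] 1) (𝓝 (bn (-I))) := by
    refine radial_tendsto (bn_continuousAt (by simp) ?_)
    intro h
    have := congrArg Complex.re h
    simp at this
  have h2 : Tendsto (fun r : ℝ => bn (r * (-I))) (𝓝[<] 1) (𝓝 0) := by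
    refine Tendsto.congr' ?_ tendsto_const_nhds
    filter_upwards [ev_lt] with r hr
    refine (hcon _ ?_).symm
    rw [mem_ball_zero_iff, norm_mul, norm_neg, norm_I, mul_one, Complex.norm_real, Real.norm_of_nonneg hr.1.le]
    exact hr.2
  exact bn_negI (tendsto_nhds_unique h1 h2)

/-- The counterexample. -/
theorem main (N M : Type*) [NormedAddCommGroup N] [InnerProductSpace ℂ N] [CompleteSpace N]
    [FiniteDimensional ℂ N] [NormedAddCommGroup M] [InnerProductSpace ℂ M] [CompleteSpace M]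
    [FiniteDimensional ℂ M] (hN : 0 < Module.finrank ℂ N) (hNM : Module.finrank ℂ N ≤ Module.finrank ℂ M) :
    ∃ χ : ℂ → M →L[ℂ] N, InBa χ ∧ InBSz χ ∧
      ∃ (X : TT → M →L[ℂ] N) (A : ℂ → N →L[ℂ] N) (Y : TT → N →L[ℂ] N) (B : ℂ → M →L[ℂ] M)
        (Z : TT → M →L[ℂ] M) (Γ : ell2 N →L[ℂ] ell2 M), IsData χ X A Y B Z Γ ∧
        ∃ z ∈ Metric.ball (0 : ℂ) 1,
          ¬ Tendsto (fun ρ : ℝ => (Ring.inverse (Pplus Γ ρ z)).comp (qplus Γ ρ z)) (𝓝[<] 1) (𝓝 (χ z)) := by
  classical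
  have hnt : Nontrivial N := Module.nontrivial_of_finrank_pos hN
  have hM : 0 < Module.finrank ℂ M := by omega
  set b := stdOrthonormalBasis ℂ M with hb
  set i₀ : Fin (Module.finrank ℂ M) := ⟨0, hM⟩ with hi
  obtain ⟨f, hf⟩ : ∃ f : N, ‖f‖ = 1 :=
    ⟨stdOrthonormalBasis ℂ N ⟨0, hN⟩, (stdOrthonormalBasis ℂ N).orthonormal.1 _⟩
  have he : ‖b i₀‖ = 1 := b.orthonormal.1 i₀
  have hdet : ∀ θ, szDet (Xb (b i₀) f θ) = ‖an (pt θ)‖ ^ 2 := by
    intro θ
    unfold Xb
    rw [det_calc b i₀ f hf]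
    have := ab_eq (pt_norm θ)
    linarith
  refine ⟨chi (b i₀) f, chi_Ba (b i₀) f he hf, ⟨chi_mem (b i₀) f he hf, Xb (b i₀) f, chi_bdry _ _, ?_, ?_⟩,
    Xb (b i₀) f, Af f, Yf f, Af (b i₀), Yf (b i₀), 0, isData he hf, ?_⟩
  · refine ae_of_all _ fun θ => ?_
    rw [hdet]
    have : 0 < ‖an (pt θ)‖ := norm_pos_iff.2 (an_ne (pt_norm θ).le)
    positivity
  · simp_rw [hdet, Real.log_pow]
    exact log_an_integrable.const_mul _
  · obtain ⟨z, hz, hbz⟩ := exists_bn_ne
    refine ⟨z, hz, fun h => ?_⟩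
    have h1 : ∀ ρ : ℝ, (Ring.inverse (Pplus (0 : ell2 N →L[ℂ] ell2 M) ρ z)).comp
        (qplus (0 : ell2 N →L[ℂ] ell2 M) ρ z) = 0 := by
      intro ρ
      rw [qplus_zero, ContinuousLinearMap.comp_zero]
    simp_rw [h1] at h
    have h2 : chi (b i₀) f z = 0 := (tendsto_nhds_unique h tendsto_const_nhds)
    have h3 : chi (b i₀) f z (b i₀) = 0 := by rw [h2]; rfl
    unfold chi at h3
    rw [smul_apply, PP_apply, inner_self_one he, one_smul] at h3
    rcases smul_eq_zero.1 h3 with h4 | h4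
    · exact hbz h4
    · rw [h4, norm_zero] at hf
      exact zero_ne_one hf

end Pool.Agent.N279.AAK
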