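import Pool.Agent.N279.AAK.Outer
import Pool.Agent.N279.AAK.Defs

/-!
Rank one perturbations of the identity.
-/

open MeasureTheory Filter Topology Complex Set
open scoped ENNReal ComplexConjugate
open Pool.Agent.Helper630.Szego

namespace Pool.Agent.N279.AAK

open ContinuousLinearMap (adjoint)

variable {N M : Type*} [NormedAddCommGroup N] [InnerProductSpace ℂ N] [CompleteSpace N]
  [NormedAddCommGroup M] [InnerProductSpace ℂ M] [CompleteSpace M]

lemma adjoint_PP (e : M) (f : N) : adjoint (PP e f) = PP f e := by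
  refine (ContinuousLinearMap.eq_adjoint_iff (PP f e) (PP e f)).2 (fun x y => ?_) |>.symm
  rw [PP_apply, PP_apply, inner_smul_left, inner_smul_right, inner_conj_symm]
  ring

/-- the operator equal to `c` on the line spanned by `e` and to `1` on its complement -/
noncomputable def opA (e : M) (c : ℂ) : M →L[ℂ] M := 1 + (c - 1) • PP e e

lemma opA_apply (e : M) (c : ℂ) (x : M) : opA e c x = x + ((c - 1) * inner ℂ e x) • e := by
  unfold opA
  rw [add_apply, smul_apply, PP_apply, smul_smul]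
  rfl

lemma opA_one (e : M) : opA e 1 = 1 := by
  unfold opA
  rw [sub_self, zero_smul, add_zero]

lemma inner_self_one {e : M} (he : ‖e‖ = 1) : inner ℂ e e = (1 : ℂ) := by
  rw [inner_self_eq_norm_sq_to_K, he]; simp

lemma opA_comp {e : M} (he : ‖e‖ = 1) (c d : ℂ) : (opA e c).comp (opA e d) = opA e (c * d) := by
  ext x
  rw [ContinuousLinearMap.comp_apply, opA_apply, opA_apply, opA_apply, inner_add_right, inner_smul_right,
    inner_self_one he, mul_one, add_assoc, ← add_smul]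
  congr 2
  ring

lemma opA_mul {e : M} (he : ‖e‖ = 1) (c d : ℂ) : opA e c * opA e d = opA e (c * d) := opA_comp he c d

lemma opA_inverse {e : M} (he : ‖e‖ = 1) {c : ℂ} (hc : c ≠ 0) : Ring.inverse (opA e c) = opA e c⁻¹ := by
  have h1 : opA e c * opA e c⁻¹ = 1 := by rw [opA_mul he, mul_inv_cancel₀ hc, opA_one]
  have h2 : opA e c⁻¹ * opA e c = 1 := by rw [opA_mul he, inv_mul_cancel₀ hc, opA_one]
  exact Ring.inverse_unit (⟨opA e c, opA e c⁻¹, h1, h2⟩ : (M →L[ℂ] M)ˣ)

lemma adjoint_one' : adjoint (1 : M →L[ℂ] M) = 1 := ContinuousLinearMap.adjoint_id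

lemma adjoint_opA (e : M) (c : ℂ) : adjoint (opA e c) = opA e (conj c) := by
  unfold opA
  rw [map_add, adjoint_one', LinearIsometryEquiv.map_smulₛₗ, adjoint_PP, map_sub, map_one]

lemma opA_norm_le {e : M} (he : ‖e‖ = 1) {c : ℂ} (hc : ‖c‖ ≤ 1) : ‖opA e c‖ ≤ 1 := by
  refine ContinuousLinearMap.opNorm_le_bound _ zero_le_one fun x => ?_
  rw [one_mul]
  have h1 : opA e c x = (x - inner ℂ e x • e) + (c * inner ℂ e x) • e := by
    rw [opA_apply, sub_mul, sub_smul, one_mul]; abel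
  have h2 : inner ℂ (x - inner ℂ e x • e) ((inner ℂ e x) • e) = (0 : ℂ) := by
    rw [inner_smul_right, inner_sub_left, inner_smul_left, inner_self_one he, mul_one, inner_conj_symm, sub_self,
      mul_zero]
  have h3 : inner ℂ (x - inner ℂ e x • e) ((c * inner ℂ e x) • e) = (0 : ℂ) := by
    rw [mul_smul, inner_smul_right, h2, mul_zero]
  have h4 := norm_add_sq_eq_norm_sq_add_norm_sq_of_inner_eq_zero _ _ h3
  have h5 := norm_add_sq_eq_norm_sq_add_norm_sq_of_inner_eq_zero _ _ h2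
  rw [sub_add_cancel] at h5
  rw [← h1] at h4
  have h6 : ‖(c * inner ℂ e x) • e‖ ≤ ‖(inner ℂ e x : ℂ) • e‖ := by
    rw [mul_smul, norm_smul]
    calc ‖c‖ * ‖(inner ℂ e x : ℂ) • e‖ ≤ 1 * ‖(inner ℂ e x : ℂ) • e‖ := by gcongr
      _ = _ := one_mul _
  nlinarith [norm_nonneg (opA e c x), norm_nonneg x, norm_nonneg ((c * inner ℂ e x) • e),
    norm_nonneg ((inner ℂ e x : ℂ) • e)]

lemma opA_det [FiniteDimensional ℂ M] {e : M} (he : ‖e‖ = 1) (c : ℂ) : (opA e c).det = c := by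
  have h : ((opA e c : M →L[ℂ] M) : M →ₗ[ℂ] M) =
      LinearMap.transvection ((innerSL ℂ e : M →L[ℂ] ℂ) : M →ₗ[ℂ] ℂ) ((c - 1) • e) := by
    ext x
    have h1 : LinearMap.transvection ((innerSL ℂ e : M →L[ℂ] ℂ) : M →ₗ[ℂ] ℂ) ((c - 1) • e) x =
      x + (inner ℂ e x : ℂ) • ((c - 1) • e) := rfl
    rw [h1]
    change opA e c x = _
    rw [opA_apply, smul_smul, mul_comm]
  unfold ContinuousLinearMap.det
  rw [h, LinearMap.transvection.det]
  have h2 : ((innerSL ℂ e : M →L[ℂ] ℂ) : M →ₗ[ℂ] ℂ) ((c - 1) • e) = inner ℂ e ((c - 1) • e) := rfl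
  rw [h2, inner_smul_right, inner_self_one he]
  ring

lemma opA_isPositive {e : M} (he : ‖e‖ = 1) {t : ℝ} (ht : 0 ≤ t) : (opA e (t : ℂ)).IsPositive := by
  refine (ContinuousLinearMap.isPositive_iff_complex _).2 fun x => ?_
  have h1 : inner ℂ (opA e (t : ℂ) x) x = ((‖x‖ ^ 2 + (t - 1) * ‖(inner ℂ e x : ℂ)‖ ^ 2 : ℝ) : ℂ) := by
    rw [opA_apply, inner_add_left, inner_smul_left, inner_self_eq_norm_sq_to_K, map_mul, map_sub, map_one,
      Complex.conj_ofReal]
    push_cast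
    rw [← Complex.conj_mul' (inner ℂ e x)]
    simp only [Complex.coe_algebraMap]
    ring
  rw [h1]
  refine ⟨by rw [RCLike.re_to_complex, Complex.ofReal_re], ?_⟩
  have h2 : ‖(inner ℂ e x : ℂ)‖ ≤ ‖x‖ := by
    have := norm_inner_le_norm (𝕜 := ℂ) e x
    rw [he, one_mul] at this
    exact this
  have h3 : ‖(inner ℂ e x : ℂ)‖ ^ 2 ≤ ‖x‖ ^ 2 := by gcongr
  simp only [RCLike.re_to_complex, Complex.ofReal_re]
  nlinarith [sq_nonneg ‖(inner ℂ e x : ℂ)‖]

lemma one_sub_PP (e : M) (c : ℂ) : (1 : M →L[ℂ] M) - c • PP e e = opA e (1 - c) := by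
  unfold opA
  have : (1 - c - 1 : ℂ) = -c := by ring
  rw [this, neg_smul, sub_eq_add_neg]

lemma PP_comp {e : M} {f g : N} (h : M) : (PP f h).comp (PP e g) = (inner ℂ f g : ℂ) • PP e h := by
  ext x
  rw [ContinuousLinearMap.comp_apply, PP_apply, PP_apply, smul_apply, PP_apply, inner_smul_right, smul_smul, mul_comm]

end Pool.Agent.N279.AAK
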