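import Pool.Agent.N279.AAK.AC

/-!
The outer property and the vanishing of the Fourier coefficients.
-/

open MeasureTheory Filter Topology Complex Set
open scoped ENNReal ComplexConjugate
open Pool.Agent.Helper630.Szego

namespace Pool.Agent.N279.AAK

lemma circ_int {E : Type*} [NormedAddCommGroup E] [NormedSpace ℝ E] (f : ℂ → E) (r : ℝ) :
    ∫ θ : TT, f (r * pt θ) = ∫ x in (0:ℝ)..(2 * Real.pi), f (circleMap 0 r x) := by
  have h := AddCircle.intervalIntegral_preimage (2 * Real.pi) 0 (fun θ : TT => f (r * pt θ))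
  rw [← h, zero_add]
  refine intervalIntegral.integral_congr fun x _ => ?_
  simp only [circleMap, zero_add]
  rw [pt_coe]

/-- the majorant -/
noncomputable def maj (θ : TT) : ℝ := Real.log KC + 4 * ‖1 - pt θ‖ ^ (-(1 / 2) : ℝ)

lemma abs_rpow_integrable : IntegrableOn (fun x : ℝ => |x| ^ (-(1 / 2) : ℝ)) (Ioc (-Real.pi) (-Real.pi + 2 * Real.pi)) := by
  have h0 : IntervalIntegrable (fun x : ℝ => |x| ^ (-(1 / 2) : ℝ)) volume 0 Real.pi := by
    have h1 : IntervalIntegrable (fun x : ℝ => x ^ (-(1 / 2) : ℝ)) volume 0 Real.pi :=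
      intervalIntegral.intervalIntegrable_rpow' (by norm_num)
    refine h1.congr (fun x hx => ?_)
    rw [uIoc_of_le Real.pi_pos.le] at hx
    rw [abs_of_pos hx.1]
  have h2 : IntervalIntegrable (fun x : ℝ => |x| ^ (-(1 / 2) : ℝ)) volume (-Real.pi) 0 := by
    have h3 := (h0.comp_sub_left 0).symm
    simp only [zero_sub, abs_neg, sub_self] at h3
    exact h3
  have h4 := (intervalIntegrable_iff_integrableOn_Ioc_of_le (by linarith [Real.pi_pos])).1 (h2.trans h0)
  have h5 : -Real.pi + 2 * Real.pi = Real.pi := by ring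
  rw [h5]
  exact h4

lemma pt_one_norm_ge {x : ℝ} (hx : |x| ≤ Real.pi) : 2 / Real.pi * |x| ≤ ‖1 - pt (x : TT)‖ := by
  rw [pt_coe, norm_sub_rev, mul_comm (x : ℂ) I, Complex.norm_exp_I_mul_ofReal_sub_one, norm_mul, Real.norm_ofNat,
    Real.norm_eq_abs]
  have h1 := Real.mul_abs_le_abs_sin (x := x / 2) (by
    rw [abs_div, abs_of_pos (by norm_num : (0:ℝ) < 2)]
    linarith)
  rw [abs_div, abs_of_pos (by norm_num : (0:ℝ) < 2)] at h1
  have h2 : 2 / Real.pi * |x| = 2 * (2 / Real.pi * (|x| / 2)) := by ring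
  rw [h2]
  linarith

lemma maj_integrable : Integrable maj := by
  unfold maj
  refine (integrable_const _).add (Integrable.const_mul ?_ 4)
  have hmeas : Measurable (fun θ : TT => ‖1 - pt θ‖ ^ (-(1 / 2) : ℝ)) := by
    have := pt_continuous.measurable
    fun_prop
  have hmp := AddCircle.measurePreserving_mk (2 * Real.pi) (-Real.pi)
  rw [← hmp.integrable_comp hmeas.aestronglyMeasurable]
  have h1 : IntegrableOn (fun x : ℝ => (2 / Real.pi) ^ (-(1 / 2) : ℝ) * |x| ^ (-(1 / 2) : ℝ))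
    (Ioc (-Real.pi) (-Real.pi + 2 * Real.pi)) := abs_rpow_integrable.const_mul _
  refine Integrable.mono' h1 ?_ ?_
  · exact (hmeas.comp AddCircle.measurable_mk').aestronglyMeasurable
  · refine (ae_restrict_iff' measurableSet_Ioc).2 (ae_of_all _ fun x hx => ?_)
    have hp := Real.pi_pos
    have hx' : |x| ≤ Real.pi := abs_le.2 ⟨hx.1.le, by linarith [hx.2]⟩
    simp only [Function.comp]
    rw [Real.norm_of_nonneg (by positivity)]
    by_cases h0 : x = 0
    · rw [h0]
      have h2 : pt ((0 : ℝ) : TT) = 1 := by rw [pt_coe]; simp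
      rw [h2, sub_self, norm_zero, Real.zero_rpow (by norm_num)]
      positivity
    · have h2 := pt_one_norm_ge hx'
      have h3 : 0 < |x| := abs_pos.2 h0
      rw [← Real.mul_rpow (by positivity) h3.le]
      exact Real.rpow_le_rpow_of_nonpos (by positivity) h2 (by norm_num)

lemma log_an_bound (θ : TT) (hθ : pt θ ≠ 1) {r : ℝ} (hr0 : 0 < r) (hr1 : r ≤ 1) : |Real.log ‖an (r * pt θ)‖| ≤ maj θ := by
  have hn : ‖(r : ℂ) * pt θ‖ = r := by
    rw [norm_mul, pt_norm, mul_one, Complex.norm_real, Real.norm_of_nonneg hr0.le]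
  have hn1 : ‖(r : ℂ) * pt θ‖ ≤ 1 := by rw [hn]; exact hr1
  have h2 : 0 < ‖1 - pt θ‖ := norm_pos_iff.2 (sub_ne_zero.2 hθ.symm)
  have h1 := half_dist θ hr0.le hr1
  have hne : (r : ℂ) * pt θ ≠ 1 := by
    intro h
    rw [h] at h1
    simp at h1
    rw [norm_sub_rev] at h2
    have h3 : ‖1 - pt θ‖ / 2 ≤ 0 := by simpa using h1
    rw [norm_sub_rev] at h3
    linarith
  have ha := an_ne hn1
  have ha1 := an_le hn1
  have ha2 : 0 < ‖an (r * pt θ)‖ := norm_pos_iff.2 ha
  have hKC := KC_ge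
  rw [abs_of_nonpos (Real.log_nonpos ha2.le ha1)]
  have h3 := an_norm_ge hn1
  have h4 : -Real.log ‖an (r * pt θ)‖ ≤ Real.log (KC * Real.exp (2 * ‖kk (r * pt θ)‖)) := by
    rw [neg_le, ← Real.log_inv]
    exact Real.log_le_log (by positivity) h3
  have h5 : Real.log (KC * Real.exp (2 * ‖kk (r * pt θ)‖)) = Real.log KC + 2 * ‖kk (r * pt θ)‖ := by
    rw [Real.log_mul (by positivity) (Real.exp_pos _).ne', Real.log_exp]
  have h6 : ‖kk (r * pt θ)‖ ≤ 2 * ‖1 - pt θ‖ ^ (-(1 / 2) : ℝ) := by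
    have h7 := kk_norm_sq (r * pt θ)
    have h8 : ‖cay (r * pt θ)‖ ≤ 4 / ‖1 - pt θ‖ := by
      refine (cay_norm_le hn1 hne).trans ?_
      rw [div_le_div_iff₀ (norm_pos_iff.2 (sub_ne_zero.2 hne.symm)) h2]
      linarith
    have h9 : (2 * ‖1 - pt θ‖ ^ (-(1 / 2) : ℝ)) ^ 2 = 4 / ‖1 - pt θ‖ := by
      rw [mul_pow, ← Real.rpow_natCast (‖1 - pt θ‖ ^ (-(1 / 2) : ℝ)) 2, ← Real.rpow_mul h2.le]
      norm_num
      rw [Real.rpow_neg_one, div_eq_mul_inv]
    rw [← h9, ← h7] at h8
    exact le_of_sq_le_sq h8 (by positivity)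
  unfold maj
  linarith

lemma an_measurable : Measurable an := by
  have h1 : Measurable cay := by
    unfold cay
    fun_prop
  have h2 : Measurable tt := by
    unfold tt
    fun_prop
  have h3 : Measurable Pn := Pn_differentiable.continuous.measurable
  have h4 : Measurable kk := h2.comp h1
  exact (h3.comp h4).inv

lemma log_an_integrable : Integrable (fun θ : TT => Real.log ‖an (pt θ)‖) := by
  refine Integrable.mono' maj_integrable ?_ ?_
  · exact (Real.measurable_log.comp (an_measurable.comp pt_continuous.measurable).norm).aestronglyMeasurable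
  · filter_upwards [ae_ne_zero] with θ hθ
    have := log_an_bound θ hθ one_pos le_rfl
    rw [Complex.ofReal_one, one_mul] at this
    exact this

lemma radial_tendsto {E : Type*} [TopologicalSpace E] {f : ℂ → E} {ζ : ℂ} (hf : ContinuousAt f ζ) :
    Tendsto (fun r : ℝ => f (r * ζ)) (𝓝[<] 1) (𝓝 (f ζ)) := by
  have hr : Tendsto (fun r : ℝ => (r : ℂ) * ζ) (𝓝[<] 1) (𝓝 ζ) := by
    have : Continuous (fun r : ℝ => (r : ℂ) * ζ) := by fun_prop
    have h := this.tendsto 1
    rw [Complex.ofReal_one, one_mul] at h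
    exact h.mono_left nhdsWithin_le_nhds
  exact hf.tendsto.comp hr

lemma ev_lt : ∀ᶠ s : ℝ in 𝓝[<] 1, 0 < s ∧ s < 1 := by
  have hev1 : ∀ᶠ s : ℝ in 𝓝[<] 1, s < 1 := self_mem_nhdsWithin
  have hev2 : ∀ᶠ s : ℝ in 𝓝[<] 1, 0 < s := mem_nhdsWithin_of_mem_nhds (lt_mem_nhds one_pos)
  filter_upwards [hev1, hev2] with r h1 h2 using ⟨h2, h1⟩

lemma an_analytic {r : ℝ} (hr0 : 0 < r) (hr1 : r < 1) : AnalyticOnNhd ℂ an (Metric.closedBall 0 |r|) := by
  intro z hz
  have hz1 : ‖z‖ < 1 := by
    rw [Metric.mem_closedBall, dist_zero_right, abs_of_pos hr0] at hz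
    linarith
  have hopen : Metric.ball (0:ℂ) 1 ∈ 𝓝 z := Metric.isOpen_ball.mem_nhds (mem_ball_zero_iff.2 hz1)
  have hd : DifferentiableOn ℂ an (Metric.ball 0 1) := fun w hw =>
    (an_differentiableAt (mem_ball_zero_iff.1 hw)).differentiableWithinAt
  exact hd.analyticAt hopen

lemma log_mean {r : ℝ} (hr0 : 0 < r) (hr1 : r < 1) : ∫ θ : TT, Real.log ‖an (r * pt θ)‖ = 2 * Real.pi * Real.log ‖an 0‖ := by
  have h1 := AnalyticOnNhd.circleAverage_log_norm_of_ne_zero (an_analytic hr0 hr1) (fun u hu => an_ne (by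
    rw [Metric.mem_closedBall, dist_zero_right, abs_of_pos hr0] at hu
    linarith))
  rw [Real.circleAverage_def] at h1
  rw [circ_int (fun z => Real.log ‖an z‖) r, ← h1, smul_eq_mul]
  have := Real.pi_pos
  field_simp

lemma log_mean_one : ∫ θ : TT, Real.log ‖an (pt θ)‖ = 2 * Real.pi * Real.log ‖an 0‖ := by
  have h1 : Tendsto (fun r : ℝ => ∫ θ : TT, Real.log ‖an (r * pt θ)‖) (𝓝[<] 1) (𝓝 (∫ θ : TT, Real.log ‖an (pt θ)‖)) := by
    refine tendsto_integral_filter_of_dominated_convergence maj ?_ ?_ maj_integrable ?_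
    · refine Eventually.of_forall fun r => ?_
      have := pt_continuous.measurable
      have h2 : Measurable (fun θ : TT => (r : ℂ) * pt θ) := by fun_prop
      exact (Real.measurable_log.comp (an_measurable.comp h2).norm).aestronglyMeasurable
    · filter_upwards [ev_lt] with r hr
      filter_upwards [ae_ne_zero] with θ hθ
      exact log_an_bound θ hθ hr.1 hr.2.le
    · filter_upwards [ae_ne_zero] with θ hθ
      refine radial_tendsto (f := fun z => Real.log ‖an z‖) ?_
      have h3 := an_continuousAt (pt_norm θ).le hθ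
      exact h3.norm.log (norm_ne_zero_iff.2 (an_ne (pt_norm θ).le))
  have h2 : Tendsto (fun r : ℝ => ∫ θ : TT, Real.log ‖an (r * pt θ)‖) (𝓝[<] 1) (𝓝 (2 * Real.pi * Real.log ‖an 0‖)) := by
    refine Tendsto.congr' ?_ tendsto_const_nhds
    filter_upwards [ev_lt] with r hr
    exact (log_mean hr.1 hr.2).symm
  exact tendsto_nhds_unique h1 h2

lemma Fn_measurable : Measurable Fn := by
  have h1 : Measurable cay := by
    unfold cay
    fun_prop
  have h2 : Measurable tt := by
    unfold tt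
    fun_prop
  have h4 : Measurable kk := h2.comp h1
  have h5 : Measurable Gf := num_differentiable.continuous.measurable.div den_differentiable.continuous.measurable
  exact measurable_const.mul (h5.comp h4)

lemma Fn_moment {r : ℝ} (hr0 : 0 < r) (hr1 : r < 1) (n : ℕ) : ∫ θ : TT, pt θ ^ (n + 1) * Fn (r * pt θ) = 0 := by
  have h1 : (∮ z in C(0, r), z ^ n * Fn z) = 0 := by
    have hd : ∀ z : ℂ, ‖z‖ ≤ r → DifferentiableAt ℂ (fun z => z ^ n * Fn z) z := fun z hz =>
      (differentiableAt_pow n).mul (Fn_differentiableAt (lt_of_le_of_lt hz hr1))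
    refine Complex.circleIntegral_eq_zero_of_differentiable_on_off_countable hr0.le Set.countable_empty ?_ ?_
    · intro z hz
      exact (hd z (by simpa using hz)).continuousAt.continuousWithinAt
    · intro z hz
      have : ‖z‖ < r := by simpa using hz.1
      exact hd z this.le
  have h2 : ∀ θ : TT, pt θ ^ (n + 1) * Fn (r * pt θ) = ((r : ℂ) ^ (n + 1))⁻¹ * ((r * pt θ) ^ (n + 1) * Fn (r * pt θ)) := by
    intro θ
    have : (r : ℂ) ≠ 0 := by exact_mod_cast hr0.ne'
    rw [mul_pow]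
    field_simp
  simp_rw [h2]
  rw [integral_const_mul, circ_int (fun z => z ^ (n + 1) * Fn z) r]
  have h3 : (∮ z in C(0, r), z ^ n * Fn z) = I * ∫ x in (0:ℝ)..(2 * Real.pi), circleMap 0 r x ^ (n + 1) * Fn (circleMap 0 r x) := by
    unfold circleIntegral
    rw [← intervalIntegral.integral_const_mul]
    refine intervalIntegral.integral_congr fun x _ => ?_
    simp only [deriv_circleMap, smul_eq_mul]
    ring
  rw [h1] at h3
  have h4 : ∫ x in (0:ℝ)..(2 * Real.pi), circleMap 0 r x ^ (n + 1) * Fn (circleMap 0 r x) = 0 := by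
    rcases mul_eq_zero.1 h3.symm with h | h
    · exact absurd h I_ne_zero
    · exact h
  rw [h4, mul_zero]

lemma Fn_coeff (n : ℕ) : ∫ θ : TT, pt θ ^ (n + 1) * Fn (pt θ) = 0 := by
  have h1 : Tendsto (fun r : ℝ => ∫ θ : TT, pt θ ^ (n + 1) * Fn (r * pt θ)) (𝓝[<] 1) (𝓝 (∫ θ : TT, pt θ ^ (n + 1) * Fn (pt θ))) := by
    refine tendsto_integral_filter_of_dominated_convergence (fun _ => 1) ?_ ?_ (integrable_const _) ?_
    · refine Eventually.of_forall fun r => ?_
      have := pt_continuous.measurable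
      have h2 : Measurable (fun θ : TT => (r : ℂ) * pt θ) := by fun_prop
      exact ((this.pow_const _).mul (Fn_measurable.comp h2)).aestronglyMeasurable
    · filter_upwards [ev_lt] with r hr
      refine ae_of_all _ fun θ => ?_
      rw [norm_mul, norm_pow, pt_norm, one_pow, one_mul]
      refine Fn_le ?_
      rw [norm_mul, pt_norm, mul_one, Complex.norm_real, Real.norm_of_nonneg hr.1.le]
      exact hr.2.le
    · filter_upwards [ae_ne_zero] with θ hθ
      exact (radial_tendsto (Fn_continuousAt (pt_norm θ).le hθ)).const_mul _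
  have h2 : Tendsto (fun r : ℝ => ∫ θ : TT, pt θ ^ (n + 1) * Fn (r * pt θ)) (𝓝[<] 1) (𝓝 0) := by
    refine Tendsto.congr' ?_ tendsto_const_nhds
    filter_upwards [ev_lt] with r hr
    exact (Fn_moment hr.1 hr.2 n).symm
  exact tendsto_nhds_unique h1 h2

end Pool.Agent.N279.AAK
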