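import Pool.Agent.N279.AAK.Entire2
import Pool.Agent.Helper630.Szego.Disc

/-!
The pair `(a, b)` on the disc.
-/

open Complex Filter Topology
open scoped ComplexConjugate
open Pool.Agent.Helper630.Szego

namespace Pool.Agent.N279.AAK

/-- the point of the closed first quadrant attached to `z` -/
noncomputable def kk (z : ℂ) : ℂ := tt (cay z)

lemma cay_re_nonneg {z : ℂ} (hz : ‖z‖ ≤ 1) : 0 ≤ (cay z).re := by
  rw [cay_re]
  have : 0 ≤ 1 - ‖z‖ ^ 2 := by nlinarith [norm_nonneg z]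
  positivity

lemma kk_nonneg {z : ℂ} (hz : ‖z‖ ≤ 1) : 0 ≤ (kk z).re ∧ 0 ≤ (kk z).im := tt_nonneg (cay_re_nonneg hz)

lemma kk_bdry {z : ℂ} (hz : ‖z‖ = 1) : (kk z).re * (kk z).im = 0 := by
  have h1 := tt_re_mul_im (cay z)
  rw [cay_re, hz] at h1
  have h2 : 2 * ((tt (cay z)).re * (tt (cay z)).im) = 0 := by rw [h1]; simp
  unfold kk
  linarith

lemma kk_norm_sq (z : ℂ) : ‖kk z‖ ^ 2 = ‖cay z‖ := tt_norm_sq _

lemma cay_continuousAt' {z : ℂ} (hz : z ≠ 1) : ContinuousAt cay z := by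
  unfold cay
  exact ContinuousAt.div (by fun_prop) (by fun_prop) (sub_ne_zero.2 (Ne.symm hz))

lemma kk_continuousAt {z : ℂ} (hz : ‖z‖ ≤ 1) (h1 : z ≠ 1) : ContinuousAt kk z :=
  ContinuousAt.comp (g := tt) (tt_continuousAt (cay_re_nonneg hz)) (cay_continuousAt' h1)

lemma ne_one_of_lt {z : ℂ} (hz : ‖z‖ < 1) : z ≠ 1 := by
  intro h
  rw [h] at hz; simp at hz

lemma kk_differentiableAt {z : ℂ} (hz : ‖z‖ < 1) : DifferentiableAt ℂ kk z := by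
  have h1 : DifferentiableAt ℂ cay z := by
    unfold cay
    refine DifferentiableAt.div (by fun_prop) (by fun_prop) ?_
    exact sub_ne_zero.2 (ne_one_of_lt hz).symm
  exact DifferentiableAt.comp (g := tt) z (tt_differentiableAt (cay_re_pos hz)) h1

/-- the base point -/
noncomputable def k0 : ℂ := kk 0

lemma k0_nonneg : 0 ≤ k0.re ∧ 0 ≤ k0.im := kk_nonneg (by simp)

lemma k0_im_ne : k0.im ≠ 0 := by
  intro h
  have h1 := tt_re_mul_im (cay 0)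
  have h2 : (cay 0).re = 1 := by rw [cay_re]; simp
  have h3 : (tt (cay 0)).im = 0 := h
  rw [h3, h2] at h1
  simp at h1

/-- the value of `b = q / P` at the base point -/
noncomputable def lam : ℂ := Qf k0 / Pf k0

lemma Qf_lt_Pf {k : ℂ} (ha : 0 ≤ k.re) (hb : 0 ≤ k.im) : ‖Qf k‖ < ‖Pf k‖ := by
  have h := quad_ge k ha hb
  nlinarith [norm_nonneg (Qf k), norm_nonneg (Pf k)]

lemma Pf_pos {k : ℂ} (ha : 0 ≤ k.re) (hb : 0 ≤ k.im) : 0 < ‖Pf k‖ :=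
  lt_of_le_of_lt (norm_nonneg _) (Qf_lt_Pf ha hb)

lemma Pf_k0_ne : Pf k0 ≠ 0 := norm_pos_iff.1 (Pf_pos k0_nonneg.1 k0_nonneg.2)

lemma lam_lt : ‖lam‖ < 1 := by
  unfold lam
  rw [norm_div, div_lt_one (Pf_pos k0_nonneg.1 k0_nonneg.2)]
  exact Qf_lt_Pf k0_nonneg.1 k0_nonneg.2

lemma k0_sq : k0 ^ 2 = I := by
  unfold k0 kk
  rw [tt_sq]
  simp [cay]

lemma lam_ne : lam ≠ 0 := by
  unfold lam
  refine div_ne_zero ?_ Pf_k0_ne
  unfold Qf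
  refine div_ne_zero (mul_ne_zero ?_ ?_) two_ne_zero
  · rw [k0_sq]
    intro h
    have := congrArg Complex.re h
    simp at this
  · intro h
    have h1 := Sf_mul k0
    rw [h, mul_zero] at h1
    obtain ⟨n, hn⟩ := Complex.sin_eq_zero_iff.1 h1.symm
    apply k0_im_ne
    rw [hn]
    have : ((n : ℂ) * (Real.pi : ℂ)) = ((n * Real.pi : ℝ) : ℂ) := by push_cast; ring
    rw [this, Complex.ofReal_im]

/-- the normalising constant -/
noncomputable def gc : ℂ := conj (Pf k0) / ((‖Pf k0‖ * Real.sqrt (1 - ‖lam‖ ^ 2) : ℝ) : ℂ)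

lemma one_sub_lam_pos : 0 < 1 - ‖lam‖ ^ 2 := by
  have := lam_lt
  nlinarith [norm_nonneg lam]

lemma gc_norm_sq : ‖gc‖ ^ 2 * (1 - ‖lam‖ ^ 2) = 1 := by
  have h0 := one_sub_lam_pos
  have hP := Pf_pos k0_nonneg.1 k0_nonneg.2
  unfold gc
  rw [norm_div, Complex.norm_conj, Complex.norm_real, Real.norm_of_nonneg (by positivity), div_pow, mul_pow,
    Real.sq_sqrt h0.le]
  field_simp

lemma gc_ne : gc ≠ 0 := by
  intro h
  have := gc_norm_sq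
  rw [h] at this
  simp at this

/-- the normalised function `P` -/
noncomputable def Pn (k : ℂ) : ℂ := gc * (Pf k - conj lam * Qf k)

/-- the normalised function `q` -/
noncomputable def Qn (k : ℂ) : ℂ := gc * (Qf k - lam * Pf k)

lemma j_unitary (p q l : ℂ) : ‖p - conj l * q‖ ^ 2 - ‖q - l * p‖ ^ 2 = (1 - ‖l‖ ^ 2) * (‖p‖ ^ 2 - ‖q‖ ^ 2) := by
  simp only [Complex.sq_norm, Complex.normSq_apply, sub_re, sub_im, mul_re, mul_im, conj_re, conj_im]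
  ring

lemma PQn (k : ℂ) : ‖Pn k‖ ^ 2 - ‖Qn k‖ ^ 2 = ‖Pf k‖ ^ 2 - ‖Qf k‖ ^ 2 := by
  unfold Pn Qn
  rw [norm_mul, norm_mul, mul_pow, mul_pow, ← mul_sub, j_unitary, ← mul_assoc, gc_norm_sq, one_mul]

lemma PQn_ge {k : ℂ} (ha : 0 ≤ k.re) (hb : 0 ≤ k.im) : 1 ≤ ‖Pn k‖ ^ 2 - ‖Qn k‖ ^ 2 := by
  rw [PQn]; exact quad_ge k ha hb

lemma PQn_eq {k : ℂ} (hk : k.re * k.im = 0) : ‖Pn k‖ ^ 2 - ‖Qn k‖ ^ 2 = 1 := by
  rw [PQn]; exact bdry_eq hk

lemma Pn_ge {k : ℂ} (ha : 0 ≤ k.re) (hb : 0 ≤ k.im) : 1 ≤ ‖Pn k‖ := by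
  have h := PQn_ge ha hb
  have : 1 ≤ ‖Pn k‖ ^ 2 := by nlinarith [sq_nonneg ‖Qn k‖]
  nlinarith [norm_nonneg (Pn k)]

lemma Pn_ne {k : ℂ} (ha : 0 ≤ k.re) (hb : 0 ≤ k.im) : Pn k ≠ 0 :=
  norm_pos_iff.1 (lt_of_lt_of_le one_pos (Pn_ge ha hb))

lemma Pn_differentiable : Differentiable ℂ Pn := by
  unfold Pn
  have h1 := Pf_differentiable
  have h2 := Qf_differentiable
  fun_prop

lemma Qn_differentiable : Differentiable ℂ Qn := by
  unfold Qn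
  have h1 := Pf_differentiable
  have h2 := Qf_differentiable
  fun_prop

lemma comb_norm_le {x y l : ℂ} {C : ℝ} (hl : ‖l‖ ≤ 1) (hx : ‖x‖ ≤ C) (hy : ‖y‖ ≤ C) : ‖x - l * y‖ ≤ 2 * C := by
  refine (norm_sub_le _ _).trans ?_
  rw [norm_mul]
  have : ‖l‖ * ‖y‖ ≤ 1 * C := by
    gcongr
  linarith

lemma conj_lam_le : ‖conj lam‖ ≤ 1 := by rw [Complex.norm_conj]; exact lam_lt.le

/-- the growth constant -/
noncomputable def KC : ℝ := ‖gc‖ * 4 + 1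

lemma KC_ge : 1 ≤ KC := by
  unfold KC
  linarith [norm_nonneg gc]

lemma Pn_norm_le (k : ℂ) : ‖Pn k‖ ≤ KC * Real.exp (2 * ‖k‖) := by
  unfold Pn KC
  rw [norm_mul]
  have h1 := comb_norm_le conj_lam_le (Pf_norm_le k) (Qf_norm_le k)
  have h2 : ‖gc‖ * ‖Pf k - conj lam * Qf k‖ ≤ ‖gc‖ * (2 * (2 * Real.exp (2 * ‖k‖))) := by gcongr
  have h3 := Real.exp_pos (2 * ‖k‖)
  nlinarith [norm_nonneg gc]

/-- the function `a` on the disc -/
noncomputable def an (z : ℂ) : ℂ := (Pn (kk z))⁻¹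

/-- the function `b` on the disc -/
noncomputable def bn (z : ℂ) : ℂ := Qn (kk z) / Pn (kk z)

lemma an_ne {z : ℂ} (hz : ‖z‖ ≤ 1) : an z ≠ 0 :=
  inv_ne_zero (Pn_ne (kk_nonneg hz).1 (kk_nonneg hz).2)

lemma an_le {z : ℂ} (hz : ‖z‖ ≤ 1) : ‖an z‖ ≤ 1 := by
  unfold an
  rw [norm_inv]
  exact inv_le_one_of_one_le₀ (Pn_ge (kk_nonneg hz).1 (kk_nonneg hz).2)

lemma ab_le {z : ℂ} (hz : ‖z‖ ≤ 1) : ‖an z‖ ^ 2 + ‖bn z‖ ^ 2 ≤ 1 := by
  unfold an bn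
  have h := PQn_ge (kk_nonneg hz).1 (kk_nonneg hz).2
  have h1 := Pn_ge (kk_nonneg hz).1 (kk_nonneg hz).2
  have h2 : 0 < ‖Pn (kk z)‖ ^ 2 := by positivity
  rw [norm_inv, norm_div, inv_pow, div_pow, inv_eq_one_div, ← add_div, div_le_one h2]
  linarith

lemma ab_eq {z : ℂ} (hz : ‖z‖ = 1) : ‖an z‖ ^ 2 + ‖bn z‖ ^ 2 = 1 := by
  unfold an bn
  have h := PQn_eq (kk_bdry hz)
  have h1 := Pn_ge (kk_nonneg hz.le).1 (kk_nonneg hz.le).2
  have h2 : 0 < ‖Pn (kk z)‖ ^ 2 := by positivity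
  rw [norm_inv, norm_div, inv_pow, div_pow, inv_eq_one_div, ← add_div, div_eq_one_iff_eq h2.ne']
  linarith

lemma bn_le {z : ℂ} (hz : ‖z‖ ≤ 1) : ‖bn z‖ ≤ 1 := by
  have h := ab_le hz
  nlinarith [norm_nonneg (bn z), sq_nonneg ‖an z‖]

lemma bn_lt {z : ℂ} (hz : ‖z‖ ≤ 1) : ‖bn z‖ < 1 := by
  have h := ab_le hz
  have h2 : 0 < ‖an z‖ := norm_pos_iff.2 (an_ne hz)
  nlinarith [norm_nonneg (bn z)]

lemma an_continuousAt {z : ℂ} (hz : ‖z‖ ≤ 1) (h1 : z ≠ 1) : ContinuousAt an z := by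
  unfold an
  have h2 : ContinuousAt (fun z => Pn (kk z)) z :=
    ContinuousAt.comp (g := Pn) Pn_differentiable.continuous.continuousAt (kk_continuousAt hz h1)
  exact h2.inv₀ (Pn_ne (kk_nonneg hz).1 (kk_nonneg hz).2)

lemma bn_continuousAt {z : ℂ} (hz : ‖z‖ ≤ 1) (h1 : z ≠ 1) : ContinuousAt bn z := by
  unfold bn
  have h2 : ContinuousAt (fun z => Pn (kk z)) z :=
    ContinuousAt.comp (g := Pn) Pn_differentiable.continuous.continuousAt (kk_continuousAt hz h1)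
  have h3 : ContinuousAt (fun z => Qn (kk z)) z :=
    ContinuousAt.comp (g := Qn) Qn_differentiable.continuous.continuousAt (kk_continuousAt hz h1)
  exact h3.div h2 (Pn_ne (kk_nonneg hz).1 (kk_nonneg hz).2)

lemma Pnk_differentiableAt {z : ℂ} (hz : ‖z‖ < 1) : DifferentiableAt ℂ (fun z => Pn (kk z)) z :=
  DifferentiableAt.comp (g := Pn) z (Pn_differentiable _) (kk_differentiableAt hz)

lemma an_differentiableAt {z : ℂ} (hz : ‖z‖ < 1) : DifferentiableAt ℂ an z := by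
  unfold an
  exact (Pnk_differentiableAt hz).inv (Pn_ne (kk_nonneg hz.le).1 (kk_nonneg hz.le).2)

lemma bn_differentiableAt {z : ℂ} (hz : ‖z‖ < 1) : DifferentiableAt ℂ bn z := by
  unfold bn
  have h3 : DifferentiableAt ℂ (fun z => Qn (kk z)) z :=
    DifferentiableAt.comp (g := Qn) z (Qn_differentiable _) (kk_differentiableAt hz)
  exact h3.div (Pnk_differentiableAt hz) (Pn_ne (kk_nonneg hz.le).1 (kk_nonneg hz.le).2)

lemma bn_zero : bn 0 = 0 := by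
  have h : Qn (kk 0) = 0 := by
    change Qn k0 = 0
    unfold Qn lam
    have := Pf_k0_ne
    field_simp
    ring
  unfold bn
  rw [h, zero_div]

/-- the value `a(0)` is a positive number -/
lemma an_zero : ∃ t : ℝ, 0 < t ∧ an 0 = t := by
  have h0 := one_sub_lam_pos
  have hP := Pf_pos k0_nonneg.1 k0_nonneg.2
  refine ⟨(‖Pf k0‖ * Real.sqrt (1 - ‖lam‖ ^ 2))⁻¹, by positivity, ?_⟩
  unfold an
  rw [Complex.ofReal_inv]
  congr 1
  change Pn k0 = _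
  have h1 : Pf k0 - conj lam * Qf k0 = ((1 - ‖lam‖ ^ 2 : ℝ) : ℂ) * Pf k0 := by
    have h2 : Qf k0 = lam * Pf k0 := by
      unfold lam
      have := Pf_k0_ne
      field_simp
    rw [h2]
    push_cast
    rw [← Complex.conj_mul' lam]
    ring
  unfold Pn gc
  rw [h1]
  have h3 : conj (Pf k0) * Pf k0 = ((‖Pf k0‖ ^ 2 : ℝ) : ℂ) := by
    rw [Complex.conj_mul']; push_cast; ring
  have h4 : conj (Pf k0) / ((‖Pf k0‖ * Real.sqrt (1 - ‖lam‖ ^ 2) : ℝ) : ℂ) * (((1 - ‖lam‖ ^ 2 : ℝ) : ℂ) * Pf k0) =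
      (conj (Pf k0) * Pf k0) * ((1 - ‖lam‖ ^ 2 : ℝ) : ℂ) / ((‖Pf k0‖ * Real.sqrt (1 - ‖lam‖ ^ 2) : ℝ) : ℂ) := by ring
  rw [h4, h3, ← Complex.ofReal_mul, ← Complex.ofReal_div]
  congr 1
  have h5 : Real.sqrt (1 - ‖lam‖ ^ 2) ^ 2 = 1 - ‖lam‖ ^ 2 := Real.sq_sqrt h0.le
  have h6 : 0 < Real.sqrt (1 - ‖lam‖ ^ 2) := Real.sqrt_pos.2 h0
  set s := Real.sqrt (1 - ‖lam‖ ^ 2) with hs
  rw [← h5]
  field_simp

/-- lower bound for `|a|` -/
lemma an_norm_ge {z : ℂ} (hz : ‖z‖ ≤ 1) : (KC * Real.exp (2 * ‖kk z‖))⁻¹ ≤ ‖an z‖ := by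
  unfold an
  rw [norm_inv]
  have h1 := Pn_ge (kk_nonneg hz).1 (kk_nonneg hz).2
  have h2 := Pn_norm_le (kk z)
  gcongr

end Pool.Agent.N279.AAK
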